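import Mathlib
import Pool.Agent.H1.CM.Targets2
import Pool.Agent.H24.CMX.ETA

/-!
# From Kaehler differentials to 2-forms as functions on pairs of derivations
-/

open CategoryTheory AlgebraicGeometry Limits

namespace Pool.Agent.H1.CM

namespace AMP2

section forms

variable {k K : Type} [Field k] [Field K] [Algebra k K]

lemma der_one {D : K → K} (h : IsDer (algebraMap k K) D) : D 1 = 0 := by
  have := h.const 1
  rwa [map_one] at this

/-- The derivation as a bundled map. -/
noncomputable def der (D : {D : K → K // IsDer (algebraMap k K) D}) : Derivation k K K where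
  toFun := D.1
  map_add' := D.2.add
  map_smul' := fun c f => by
    rw [Algebra.smul_def, D.2.mul, D.2.const, mul_zero, add_zero, RingHom.id_apply,
      Algebra.smul_def]
  map_one_eq_zero' := der_one D.2
  leibniz' := fun f g => D.2.mul f g

lemma der_apply (D : {D : K → K // IsDer (algebraMap k K) D}) (f : K) : der D f = D.1 f := rfl

/-- The linear form on the Kaehler differentials. -/
noncomputable def lin (D : {D : K → K // IsDer (algebraMap k K) D}) : Ω[K⁄k] →ₗ[K] K :=
  (der D).liftKaehlerDifferential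

lemma lin_D (D : {D : K → K // IsDer (algebraMap k K) D}) (f : K) :
    lin D (KaehlerDifferential.D k K f) = D.1 f :=
  Derivation.liftKaehlerDifferential_comp_D _ _

/-- The pairing of 2-forms with a pair of linear forms. -/
noncomputable def pair (l₁ l₂ : Ω[K⁄k] →ₗ[K] K) : Forms k K →ₗ[K] K :=
  exteriorPower.alternatingMapLinearEquiv
    ((Matrix.detRowAlternating (n := Fin 2) (R := K)).compLinearMap (LinearMap.pi ![l₁, l₂]))

lemma pair_wd (l₁ l₂ : Ω[K⁄k] →ₗ[K] K) (u v : Ω[K⁄k]) :
    pair l₁ l₂ (ETA.wd u v) = l₁ u * l₂ v - l₁ v * l₂ u := by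
  unfold pair ETA.wd
  rw [exteriorPower.alternatingMapLinearEquiv_apply_ιMulti, AlternatingMap.compLinearMap_apply]
  have : (Matrix.detRowAlternating (n := Fin 2) (R := K))
      (fun i => (LinearMap.pi ![l₁, l₂]) (![u, v] i)) = Matrix.det (Matrix.of
        fun i => (LinearMap.pi ![l₁, l₂]) (![u, v] i)) := rfl
  first
    | rw [this, Matrix.det_fin_two]
    | (change Matrix.det _ = _; rw [Matrix.det_fin_two])
  simp
  ring

/-- The 2-form as a function. -/
noncomputable def toTwo (ω : Forms k K) : TwoForm (algebraMap k K) :=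
  fun D₁ D₂ => pair (lin D₁) (lin D₂) ω

lemma toTwo_dd (f g : K) : toTwo (dd k f g) = wedge (algebraMap k K) f g := by
  funext D₁ D₂
  rw [toTwo, ETA.dd_eq, pair_wd, lin_D, lin_D, lin_D, lin_D]
  rfl

lemma toTwo_smul (c : K) (ω : Forms k K) : toTwo (c • ω) = fun D₁ D₂ => c * toTwo ω D₁ D₂ := by
  funext D₁ D₂
  simp [toTwo]

lemma toTwo_inj (B : Module.Basis (Fin 2) K (Ω[K⁄k])) : Function.Injective (toTwo (k := k) (K := K)) := by
  intro ω ω' h
  have hd : ∀ i : Fin 2, IsDer (algebraMap k K) fun f => B.coord i (KaehlerDifferential.D k K f) := by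
    intro i
    refine ⟨fun f g => by rw [map_add, map_add], fun f g => ?_, fun c => ?_⟩
    · rw [Derivation.leibniz, map_add, map_smul, map_smul, smul_eq_mul, smul_eq_mul]
    · rw [Derivation.map_algebraMap, map_zero]
  have hl : ∀ i : Fin 2, lin ⟨_, hd i⟩ = B.coord i := by
    intro i
    refine LinearMap.ext_on_range (v := fun f : K => KaehlerDifferential.D k K f)
      (KaehlerDifferential.span_range_derivation k K) fun f => ?_
    exact lin_D _ _
  have h1 := congrFun (congrFun h ⟨_, hd 0⟩) ⟨_, hd 1⟩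
  unfold toTwo at h1
  rw [hl, hl] at h1
  obtain ⟨c, hc⟩ := (ETA.one_dim B).2 ω
  obtain ⟨c', hc'⟩ := (ETA.one_dim B).2 ω'
  rw [hc, hc', map_smul, map_smul, pair_wd] at h1
  have h2 : B.coord 0 (B 0) * B.coord 1 (B 1) - B.coord 0 (B 1) * B.coord 1 (B 0) = 1 := by
    simp
  rw [h2, smul_eq_mul, smul_eq_mul, mul_one, mul_one] at h1
  rw [hc, hc', h1]

lemma gen_iff (B : Module.Basis (Fin 2) K (Ω[K⁄k])) (R : Subring K) (η : Forms k K) (g : K) :
    Generates (algebraMap k K) R (toTwo η) g ↔ IsGen k R η g := by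
  have hinj := toTwo_inj B
  constructor
  · rintro ⟨h1, n, c, f, f', hc, hs⟩
    apply le_antisymm
    · rw [Submodule.span_singleton_le_iff_mem]
      have : g • η = ∑ i, c i • dd k (f i) (f' i) := by
        apply hinj
        rw [toTwo_smul]
        funext D₁ D₂
        rw [hs]
        simp only [toTwo, map_sum, map_smul, smul_eq_mul]
        refine Finset.sum_congr rfl fun i _ => ?_
        have := congrFun (congrFun (toTwo_dd (k := k) (f i) (f' i)) D₁) D₂
        rw [← this]
        rfl
      rw [this]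
      refine sum_mem fun i _ => ?_
      have h3 : c i • dd k (f i) (f' i) = (⟨c i, (hc i).1⟩ : R) • dd k (f i) (f' i) := rfl
      rw [h3]
      exact Submodule.smul_mem _ _ (Submodule.subset_span ⟨f i, (hc i).2.1, f' i, (hc i).2.2, rfl⟩)
    · refine Submodule.span_le.2 ?_
      rintro _ ⟨a, ha, b, hb, rfl⟩
      obtain ⟨h, hh, he⟩ := h1 a ha b hb
      have : dd k a b = (⟨h, hh⟩ : R) • g • η := by
        apply hinj
        have h3 : (⟨h, hh⟩ : R) • g • η = h • g • η := rfl
        rw [h3, toTwo_smul, toTwo_smul, toTwo_dd]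
        funext D₁ D₂
        exact he D₁ D₂
      rw [this]
      exact Submodule.smul_mem _ _ (Submodule.mem_span_singleton_self _)
  · intro h
    unfold IsGen at h
    refine ⟨fun a ha b hb => ?_, ?_⟩
    · have h1 : dd k a b ∈ omegaSub k R := Submodule.subset_span ⟨a, ha, b, hb, rfl⟩
      rw [← h, Submodule.mem_span_singleton] at h1
      obtain ⟨r, hr⟩ := h1
      refine ⟨r, r.2, fun D₁ D₂ => ?_⟩
      have h4 := congrArg toTwo hr
      change toTwo ((r : K) • g • η) = _ at h4
      rw [toTwo_smul, toTwo_smul, toTwo_dd] at h4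
      exact (congrFun (congrFun h4 D₁) D₂).symm
    · have h1 : g • η ∈ omegaSub k R := by
        rw [← h]
        exact Submodule.mem_span_singleton_self _
      unfold omegaSub at h1
      rw [Submodule.mem_span_set'] at h1
      obtain ⟨n, c, v, hs⟩ := h1
      have hv : ∀ i, ∃ f f' : K, f ∈ R ∧ f' ∈ R ∧ (v i : Forms k K) = dd k f f' := by
        intro i
        obtain ⟨f, hf, f', hf', e⟩ := (v i).2
        exact ⟨f, f', hf, hf', e⟩
      choose f f' hf hf' e using hv
      refine ⟨n, fun i => c i, f, f', fun i => ⟨(c i).2, hf i, hf' i⟩, fun D₁ D₂ => ?_⟩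
      have h4 := congrFun (congrFun (congrArg toTwo hs) D₁) D₂
      rw [toTwo_smul] at h4
      change _ = g * toTwo η D₁ D₂ at h4
      rw [← h4]
      unfold toTwo
      rw [map_sum]
      refine Finset.sum_congr rfl fun i _ => ?_
      change pair (lin D₁) (lin D₂) ((c i : K) • (v i : Forms k K)) = _
      rw [map_smul, e, smul_eq_mul]
      have := congrFun (congrFun (toTwo_dd (k := k) (f i) (f' i)) D₁) D₂
      rw [← this]
      rfl

lemma reg_iff (B : Module.Basis (Fin 2) K (Ω[K⁄k])) (R : Subring K) (η : Forms k K) (n : ℕ)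
    (φ : K) : RegularAt (algebraMap k K) R (toTwo η) n φ ↔ RegAt k R η n φ := by
  unfold RegularAt RegAt
  simp only [gen_iff B]

lemma nonvan_iff (B : Module.Basis (Fin 2) K (Ω[K⁄k])) (R : Subring K) (η : Forms k K) (n : ℕ)
    (φ : K) : NonvanishingAt (algebraMap k K) R (toTwo η) n φ ↔ NonvanAt k R η n φ := by
  unfold NonvanishingAt NonvanAt
  simp only [gen_iff B]

end forms

end AMP2

open AMP2 in
/-- The canonical sheaf is ample, in the form of the statement. -/
theorem amp2 (hA : T_AMP) (hF : T_FFX) {k : Type} [Field k] (h2 : (2 : k) = 0) {X₀ : Scheme.{0}}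
    (s₀ : X₀ ⟶ Spec (CommRingCat.of k)) (S₀ : StdOver s₀ (std (0 : k))) [IsIntegral X₀] :
    AmpleCanonical s₀ := by
  letI := (constants s₀).toAlgebra
  obtain ⟨hgen, hffm⟩ := hF h2 s₀ S₀
  obtain ⟨B, -, -⟩ := ETA.basis (S₀.qK hgen) h2 hffm (ETA.b_ne (S₀.qK hgen) hffm)
  obtain ⟨η, hη, h⟩ := hA h2 s₀ S₀
  refine ⟨toTwo η, fun h0 => hη (toTwo_inj B ?_), fun x => ?_⟩
  · rw [h0]
    funext D₁ D₂
    exact (map_zero _).symm
  · obtain ⟨n, hn, φ, hreg, U, hU, hx, hiff⟩ := h x
    refine ⟨n, hn, φ, fun y => (reg_iff B _ _ _ _).2 (hreg y), U, hU, hx, fun y => ?_⟩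
    rw [hiff y]
    exact (nonvan_iff B _ _ _ _).symm

end Pool.Agent.H1.CM
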