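import Mathlib
import Pool.Agent.H1.CM.Targets1

namespace Pool.Agent.H1.CM

open IsLocalRing

theorem bas (h1 : T_NIL) (h2 : T_MEM) (_h3 : T_RED) : T_BAS := by
  intro A k C C₀ _ _ _ _ _ _ π ι B ι₀ q₀ ρ hctx q hq hco
  obtain ⟨β, hβ, hβρ⟩ := hctx.basis
  have hker : ∀ a : A, π a = 0 → a ∈ maximalIdeal A := by
    intro a ha
    rw [IsLocalRing.mem_maximalIdeal, mem_nonunits_iff]
    intro hu
    have := hu.map π
    rw [ha] at this
    exact not_isUnit_zero this
  -- coordinates
  choose c hc using fun s : Idx => hβ.bij.2 (q.mon s)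
  let E : (Idx →₀ A) →ₗ[A] (Idx →₀ A) := Finsupp.linearCombination A c
  have hE : ∀ g, comb ι β (E g) = comb ι q.mon g := by
    intro g
    change comb ι β (Finsupp.linearCombination A c g) = _
    rw [Finsupp.linearCombination_apply, Finsupp.sum, comb_sum]
    unfold comb
    rw [Finsupp.sum]
    refine Finset.sum_congr rfl fun s _ => ?_
    have := comb_smul ι β (g s) (c s)
    unfold comb at this
    rw [this]
    congr 1
    exact hc s
  have hsingle : ∀ s, E (Finsupp.single s 1) = c s := by
    intro s
    change Finsupp.linearCombination A c (Finsupp.single s 1) = c s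
    rw [Finsupp.linearCombination_single, one_smul]
  -- reduction of the coordinates
  have hred : ∀ g, (E g).mapRange π (map_zero π) = g.mapRange π (map_zero π) := by
    intro g
    apply hctx.fr₀.1
    have e1 := comb_map ι ι₀ π ρ hctx.comm β (E g)
    have e2 := comb_map ι ι₀ π ρ hctx.comm q.mon g
    have e3 : (fun s => ρ (β s)) = q₀.mon := by
      funext s
      exact hβρ s
    have e4 : (fun s => ρ (q.mon s)) = q₀.mon := by
      funext s
      rw [← Quad.map_mon, hq]
    rw [e3] at e1
    rw [e4] at e2
    rw [← e1, ← e2, hE]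
  have hmem : ∀ g i, (E g - g) i ∈ maximalIdeal A := by
    intro g i
    apply hker
    have := DFunLike.congr_fun (hred g) i
    rw [Finsupp.mapRange_apply, Finsupp.mapRange_apply] at this
    rw [Finsupp.sub_apply, map_sub, this, sub_self]
  obtain ⟨hbij, hsupp⟩ := h1 A Idx E hmem
  have hcomb : comb ι q.mon = comb ι β ∘ E := by
    funext g
    exact (hE g).symm
  refine ⟨?_, ?_⟩
  · rw [hcomb]
    exact hβ.bij.comp hbij
  · intro S hS x
    -- scalars
    have hone : ∀ a : A, ι a ∈ B S := by
      intro a
      obtain ⟨g, hg, h⟩ := (hβ.mem S hS 1).mp (one_mem _)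
      refine (hβ.mem S hS _).mpr ⟨a • g, fun s hs => hg s (Finsupp.support_smul hs), ?_⟩
      rw [comb_smul, ← h, mul_one]
    constructor
    · intro hx
      obtain ⟨g, hg, rfl⟩ := (hβ.mem S hS x).mp hx
      -- `E` preserves the support
      have hcS : ∀ s ∈ reg S, ∀ i ∈ (c s).support, i ∈ reg S := by
        intro s hs i hi
        obtain ⟨g', hg', h⟩ := (hβ.mem S hS _).mp (h2 B q hctx.mono hco S hS s hs)
        have : c s = g' := hβ.bij.1 ((hc s).trans h)
        rw [this] at hi
        exact hg' i hi
      have hpres : ∀ g : Idx →₀ A, (∀ i ∈ g.support, i ∈ reg S) →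
          ∀ i ∈ (E g).support, i ∈ reg S := by
        intro g hg i hi
        change i ∈ (Finsupp.linearCombination A c g).support at hi
        rw [Finsupp.linearCombination_apply, Finsupp.sum] at hi
        classical
        obtain ⟨s, hs, hi'⟩ := Finset.mem_biUnion.mp (Finsupp.support_finsetSum hi)
        exact hcS s (hg s hs) i (Finsupp.support_smul hi')
      obtain ⟨g', hg', h⟩ := hsupp (reg S) hpres g hg
      refine ⟨g', hg', ?_⟩
      rw [← hE, h]
    · rintro ⟨g, hg, rfl⟩
      unfold comb
      rw [Finsupp.sum]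
      exact sum_mem fun s hs => mul_mem (hone _) (h2 B q hctx.mono hco S hS s (hg s hs))

end Pool.Agent.H1.CM
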