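import Mathlib
import Pool.Agent.H1.CM.Targets1
import Pool.Agent.H1.CM.Coef

namespace Pool.Agent.H1.CM

open IsLocalRing MvPolynomial

namespace CMP

section

variable {A C : Type} [CommRing A] [CommRing C]

/-- Scaling of the variables in a form. -/
lemma eval₂_scale (ι : A →+* C) (v : Fin 3 → C) (t : C) {p : MvPolynomial (Fin 3) A} {d : ℕ}
    (hp : p.IsHomogeneous d) :
    eval₂ ι (fun i => t * v i) p = t ^ d * eval₂ ι v p := by
  rw [eval₂_eq, eval₂_eq, Finset.mul_sum]
  refine Finset.sum_congr rfl fun m hm => ?_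
  have hd : ∑ i ∈ m.support, m i = d := by
    have := hp (mem_support_iff.mp hm)
    rw [← this, Finsupp.weight_apply, Finsupp.sum]
    simp
  have : ∏ i ∈ m.support, (t * v i) ^ m i = t ^ d * ∏ i ∈ m.support, v i ^ m i := by
    rw [← hd, ← Finset.prod_pow_eq_pow_sum, ← Finset.prod_mul_distrib]
    exact Finset.prod_congr rfl fun i _ => mul_pow _ _ _
  rw [this]
  ring

/-- Evaluation after a linear substitution. -/
lemma ev_lsub (ι : A →+* C) (q : Quad C) (L : Fin 3 → Fin 3 → A) (p : MvPolynomial (Fin 3) A) :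
    q.ev ι (lsub L p) = eval₂ ι (fun i => ∑ j : Fin 3, ι (L i j) * q.vec j) p := by
  unfold Quad.ev lsub
  rw [← coe_eval₂Hom, ← coe_eval₂Hom, eval₂Hom_bind₁]
  congr 1
  congr 1
  funext i
  simp

lemma related_ev {ι : A →+* C} {q q' : Quad C} {L : Fin 3 → Fin 3 → A} {lam : C} {u u' : A}
    {s r0 r1 : MvPolynomial (Fin 3) A} (h : Related ι q q' L lam u u' s r0 r1)
    {p : MvPolynomial (Fin 3) A} {d : ℕ} (hp : p.IsHomogeneous d) :
    lam ^ d * q'.ev ι p = q.ev ι (lsub L p) := by
  rw [ev_lsub]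
  have : (fun i => ∑ j : Fin 3, ι (L i j) * q.vec j) = fun i => lam * q'.vec i := by
    funext i
    rw [Fin.sum_univ_three]
    fin_cases i
    · simp [Quad.vec, h.hx]
    · simp [Quad.vec, h.hy]
    · simp only [Quad.vec, Fin.reduceFinMk, Matrix.cons_val, Matrix.cons_val_zero,
        Matrix.cons_val_one, mul_one]
      exact h.hz.symm
  rw [this, eval₂_scale ι _ lam hp]
  rfl

/-- Scaling of a linear substitution. -/
lemma lsub_scale (L : Fin 3 → Fin 3 → A) (t : A) {p : MvPolynomial (Fin 3) A} {d : ℕ}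
    (hp : p.IsHomogeneous d) :
    lsub (fun i j => t * L i j) p = MvPolynomial.C (t ^ d) * lsub L p := by
  unfold lsub
  have h : ∀ f : Fin 3 → MvPolynomial (Fin 3) A, bind₁ f p = eval₂ MvPolynomial.C f p := by
    intro f
    rw [bind₁, aeval_def]
    rfl
  rw [h, h]
  have : (fun i : Fin 3 => ∑ j : Fin 3, MvPolynomial.C (t * L i j) * (X j : MvPolynomial (Fin 3) A))
      = fun i => MvPolynomial.C t * ∑ j : Fin 3, MvPolynomial.C (L i j) * X j := by
    funext i
    rw [Finset.mul_sum]
    exact Finset.sum_congr rfl fun j _ => by rw [MvPolynomial.C_mul, mul_assoc]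
  rw [this, eval₂_scale _ _ _ hp, MvPolynomial.C_pow]

lemma lsub_one (p : MvPolynomial (Fin 3) A) :
    lsub (fun i j => if i = j then (1 : A) else 0) p = p := by
  unfold lsub
  have : (fun i : Fin 3 => ∑ j : Fin 3, MvPolynomial.C (if i = j then (1 : A) else 0) *
      (X j : MvPolynomial (Fin 3) A)) = X := by
    funext i
    rw [Finset.sum_eq_single i]
    · simp
    · intro b _ hb
      rw [if_neg (Ne.symm hb)]
      simp
    · simp
  rw [this, bind₁_X_left]
  rfl

lemma map_lsub {k : Type} [CommRing k] (π : A →+* k) (L : Fin 3 → Fin 3 → A)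
    (p : MvPolynomial (Fin 3) A) :
    map π (lsub L p) = lsub (fun i j => π (L i j)) (map π p) := by
  unfold lsub
  rw [map_bind₁]
  have : (fun i : Fin 3 => map π (∑ j : Fin 3, MvPolynomial.C (L i j) *
      (X j : MvPolynomial (Fin 3) A)))
      = fun i => ∑ j : Fin 3, MvPolynomial.C (π (L i j)) * X j := by
    funext i
    simp
  rw [this]

/-- The extreme coefficients of a form are values. -/
lemma coeff_single (r : Fin 3) {p : MvPolynomial (Fin 3) A} {d : ℕ} (hp : p.IsHomogeneous d) :
    p.coeff (Finsupp.single r d) = eval (Pi.single r 1) p := by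
  rw [eval_eq]
  have key : ∀ m ∈ p.support, m ≠ Finsupp.single r d →
      coeff m p * ∏ i ∈ m.support, (Pi.single r (1 : A) : Fin 3 → A) i ^ m i = 0 := by
    intro m hm hne
    have hd : ∑ i, m i = d := by
      have := hp (mem_support_iff.mp hm)
      rw [← this, Finsupp.weight_apply, Finsupp.sum_fintype _ _ (by simp)]
      simp
    have : ∃ i, i ≠ r ∧ m i ≠ 0 := by
      by_contra hcon
      push Not at hcon
      apply hne
      ext i
      by_cases hi : i = r
      · subst hi
        rw [Finsupp.single_eq_same, ← hd]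
        rw [Finset.sum_eq_single i (fun b _ hb => hcon b hb) (by simp)]
      · rw [Finsupp.single_eq_of_ne hi, hcon i hi]
    obtain ⟨i, hir, hmi⟩ := this
    rw [Finset.prod_eq_zero (i := i) (by simpa using hmi) (by simp [hir, hmi]),
      mul_zero]
  have hone : ∏ i ∈ (Finsupp.single r d).support,
      (Pi.single r (1 : A) : Fin 3 → A) i ^ (Finsupp.single r d) i = 1 := by
    refine Finset.prod_eq_one fun i hi => ?_
    have : i = r := by
      have := Finsupp.support_single_subset hi
      simpa using this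
    subst this
    simp
  by_cases h0 : Finsupp.single r d ∈ p.support
  · rw [Finset.sum_eq_single (Finsupp.single r d) key (fun h => absurd h0 h), hone, mul_one]
  · rw [notMem_support_iff.mp h0]
    symm
    refine Finset.sum_eq_zero fun m hm => key m hm ?_
    rintro rfl
    exact h0 hm

lemma cf_x {p : MvPolynomial (Fin 3) A} {d : ℕ} (hp : p.IsHomogeneous d) :
    cf p d 0 0 = eval (Pi.single 0 1) p := by
  rw [← coeff_single 0 hp]
  unfold cf
  congr 1
  ext i
  fin_cases i <;> simp

lemma cf_y {p : MvPolynomial (Fin 3) A} {d : ℕ} (hp : p.IsHomogeneous d) :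
    cf p 0 d 0 = eval (Pi.single 1 1) p := by
  rw [← coeff_single 1 hp]
  unfold cf
  congr 1
  ext i
  fin_cases i <;> simp

/-- The values of the two forms of degree 2. -/
lemma forms4_two {s : MvPolynomial (Fin 3) A} (hs : s.IsHomogeneous 2) (u : A) :
    Forms4 2 ![s, MvPolynomial.C u, 0, 0] := by
  constructor
  · intro t ht
    fin_cases t
    · exact hs
    · exact isHomogeneous_C _ _
    · simp [dgN] at ht
    · simp [dgN] at ht
  · intro t ht
    fin_cases t
    · simp [dgN] at ht
    · simp [dgN] at ht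
    · rfl
    · rfl

lemma ev4_two (ι : A →+* C) (q : Quad C) (s : MvPolynomial (Fin 3) A) (u : A) :
    ev4 ι q ![s, MvPolynomial.C u, 0, 0] = q.ev ι s + ι u * q.n := by
  unfold ev4
  rw [Fin.sum_univ_four]
  simp [Quad.e, Quad.ev]

end

end CMP

open CMP in
theorem cmp (h1 : T_REL) (h2 : T_RELD) (h3 : T_BAS) (h4 : T_NORMU) (h5 : T_UNQ) : T_CMP := by
  intro A k C C₀ _ _ _ _ _ _ π ι B ι₀ q₀ ρ hctx two hrel₀ q q' D D' hq hco hco' hhom hhom' hrel hrel'
    hd hd' hN hN' hX hY hn hbij
  have frame := h3 π ι B ι₀ q₀ ρ hctx q hq hco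
  obtain ⟨L, lam, u, u', s, r0, r1, hR, hs, hr0, hr1, hL, hlam⟩ :=
    h1 π ι B ι₀ q₀ ρ hctx q q' hq hco hco' hX hY
  have two' : (2 : k) = 0 := by
    have := congrArg π two
    rwa [map_ofNat, map_zero] at this
  have two₀ : (2 : C₀) = 0 := by
    have := congrArg ι₀ two'
    rwa [map_ofNat, map_zero] at this
  have hev : ∀ p : MvPolynomial (Fin 3) A, ρ (q.ev ι p) = q₀.ev ι₀ (map π p) := by
    intro p
    rw [Quad.map_ev ι ι₀ π ρ hctx.comm, hq]
  have hqn : ρ q.n = q₀.n := by
    rw [← hq]; rfl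
  have hqw : ρ q.w = q₀.w := by
    rw [← hq]; rfl
  have hinj₀ := hctx.fr₀.1
  -- the reduction of the n-equation
  have e1 : ρ q'.n = ι₀ (π u) * q₀.n + q₀.ev ι₀ (map π s) := by
    have := congrArg ρ hR.hn
    rw [map_mul, map_pow, hlam, map_add, map_mul, hev, hqn, hctx.comm] at this
    simpa using this
  have hsπ : (map π s).IsHomogeneous 2 := hs.map π
  have hxy : (X 0 * X 1 : MvPolynomial (Fin 3) k).IsHomogeneous 2 :=
    (isHomogeneous_X _ _).mul (isHomogeneous_X _ _)
  have e2 : π u = 1 ∧ (map π s = 0 ∨ map π s = X 0 * X 1) := by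
    have key : ∀ s' : MvPolynomial (Fin 3) k, s'.IsHomogeneous 2 →
        ρ q'.n = q₀.n + q₀.ev ι₀ s' → π u = 1 ∧ map π s = s' := by
      intro s' hs' he
      have h := h5 ι₀ q₀ hinj₀ 2 _ _ (forms4_two hsπ (π u)) (forms4_two hs' 1) (by
        rw [ev4_two, ev4_two, map_one, one_mul]
        rw [e1] at he
        linear_combination he)
      have h0 := congrFun h 0
      have h1' := congrFun h 1
      simp only [Matrix.cons_val_zero, Matrix.cons_val_one] at h0 h1'
      exact ⟨C_injective _ _ h1', h0⟩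
    rcases hn with hn | hn
    · have := key 0 (isHomogeneous_zero _ _ _) (by rw [hn]; simp [Quad.ev])
      exact ⟨this.1, Or.inl this.2⟩
    · have := key (X 0 * X 1) hxy (by rw [hn]; simp [Quad.ev, Quad.vec])
      exact ⟨this.1, Or.inr this.2⟩
  obtain ⟨hu1, hs1⟩ := e2
  have hloc : IsLocalHom π := Function.Surjective.isLocalHom π hctx.surj
  have hu : IsUnit u := (isUnit_map_iff π u).mp (by rw [hu1]; exact isUnit_one)
  -- u' is a unit
  have hu' : IsUnit u' := by
    refine (isUnit_map_iff π u').mp ?_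
    rw [isUnit_iff_ne_zero]
    intro h0
    have e3 : ρ q'.w = q₀.ev ι₀ (map π r0) + q₀.ev ι₀ (map π r1) * q₀.n := by
      have := congrArg ρ hR.hw
      rw [map_mul, map_pow, hlam, map_add, map_add, map_mul, map_mul, hev, hev, hqn, hctx.comm,
        h0] at this
      simpa using this
    -- the quadruple `q₁`
    have hq1X : (q'.map ρ).X = q₀.X := by ext; exact hX
    have hq1Y : (q'.map ρ).Y = q₀.Y := by ext; exact hY
    have hev1 : ∀ p : MvPolynomial (Fin 3) k, (q'.map ρ).ev ι₀ p = q₀.ev ι₀ p := by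
      intro p
      unfold Quad.ev Quad.vec
      rw [hq1X, hq1Y]
    obtain ⟨t, ht, htn⟩ : ∃ t : MvPolynomial (Fin 3) k, t.IsHomogeneous 2 ∧
        q₀.n = (q'.map ρ).n + q₀.ev ι₀ t := by
      rcases hn with hn | hn
      · refine ⟨0, isHomogeneous_zero _ _ _, ?_⟩
        change q₀.n = ρ q'.n + _
        rw [hn]
        simp [Quad.ev]
      · refine ⟨X 0 * X 1, hxy, ?_⟩
        change q₀.n = ρ q'.n + _
        rw [hn, Quad.ev_mul, Quad.ev_X, Quad.ev_X]
        simp only [Quad.vec, Matrix.cons_val_zero, Matrix.cons_val_one]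
        linear_combination -(q₀.X * q₀.Y : C₀) * two₀
    have h := h5 ι₀ (q'.map ρ) hbij.1 5 ![0, 0, MvPolynomial.C 1, 0]
      ![map π r0 + map π r1 * t, map π r1, 0, 0] ?_ ?_ ?_
    · have h2 := congrFun h 2
      simp at h2
    · constructor
      · intro t ht
        fin_cases t
        · exact isHomogeneous_zero _ _ _
        · exact isHomogeneous_zero _ _ _
        · exact isHomogeneous_C _ _
        · simp [dgN] at ht
      · intro t ht
        fin_cases t
        · rfl
        · rfl
        · simp [dgN] at ht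
        · rfl
    · constructor
      · intro t' ht'
        fin_cases t'
        · exact (hr0.map π).add ((hr1.map π).mul ht)
        · exact hr1.map π
        · exact isHomogeneous_zero _ _ _
        · simp [dgN] at ht'
      · intro t' ht'
        fin_cases t'
        · simp [dgN] at ht'
        · simp [dgN] at ht'
        · rfl
        · rfl
    · unfold ev4
      rw [Fin.sum_univ_four, Fin.sum_univ_four]
      have hw1 : (q'.map ρ).w = ρ q'.w := rfl
      simp only [Matrix.cons_val_zero, Matrix.cons_val_one, Matrix.cons_val, Quad.e, hev1,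
        Quad.ev_add, Quad.ev_mul, Quad.ev_C, map_one]
      rw [hw1, e3, htn]
      simp only [Quad.ev, eval₂_zero, MvPolynomial.eval₂_one]
      ring
  -- removing the involution
  obtain ⟨q'', D'', s'', hR'', hs'', hs0, hrel'', hhom'', hDa, hDc, hbx, hby⟩ :
      ∃ (q'' : Quad C) (D'' : Data A) (s'' : MvPolynomial (Fin 3) A),
        Related ι q q'' L lam u u' s'' r0 r1 ∧ s''.IsHomogeneous 2 ∧ map π s'' = 0 ∧
        q''.Rel ι D'' ∧ D''.Homog ∧ D''.a = D'.a ∧ D''.c = D'.c ∧
        cf D''.b0 5 0 0 = cf D'.b0 5 0 0 ∧ cf D''.b0 0 5 0 = cf D'.b0 0 5 0 := by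
    rcases hs1 with hs1 | hs1
    · exact ⟨q', D', s, hR, hs, hs1, hrel', hhom', rfl, rfl, rfl, rfl⟩
    · have two_C : (2 : C) = 0 := by
        have := congrArg ι two
        rwa [map_ofNat, map_zero] at this
      have hLs : lsub (fun i j => π (L i j)) (X 0 * X 1 : MvPolynomial (Fin 3) k) = X 0 * X 1 := by
        have : (fun i j => π (L i j)) = fun i j => if i = j then (1 : k) else 0 := by
          funext i j
          exact hL i j
        rw [this, lsub_one]
      have hlm : ∀ p : MvPolynomial (Fin 3) A, map π (lsub L p)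
          = lsub (fun i j => π (L i j)) (map π p) := by
        exact fun p => map_lsub π L p
      have hDa' : map π D'.a = X 0 * X 1 := by
        have : (D'.map π).a = (std (0 : k)).a := by rw [hd']
        exact this
      refine ⟨⟨q'.X, q'.Y, q'.n + q'.ev ι D'.a, q'.w⟩,
        ⟨D'.a, D'.c, D'.b0 + D'.a * D'.b1, D'.b1, D'.e0 + D'.a * D'.e1, D'.e1⟩,
        s + lsub L D'.a, ⟨hR.hx, hR.hy, hR.hz, ?_, hR.hw⟩, ?_, ?_, ⟨?_, ?_⟩, ?_, rfl, rfl, ?_, ?_⟩
      · rw [Quad.ev_add, ← related_ev hR hhom'.a]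
        simp only
        linear_combination hR.hn
      · refine hs.add ?_
        have : (lsub L D'.a).IsHomogeneous (1 * 2) := by
          unfold lsub
          refine hhom'.a.aeval _ fun i => ?_
          refine IsHomogeneous.sum _ _ _ fun j _ => ?_
          exact (isHomogeneous_X _ _).C_mul _
        simpa using this
      · rw [map_add, hs1, hlm, hDa', hLs]
        have : (2 : MvPolynomial (Fin 3) k) = 0 := by
          have := congrArg (MvPolynomial.C : k →+* MvPolynomial (Fin 3) k) two'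
          rwa [map_ofNat, map_zero] at this
        linear_combination (X 0 * X 1 : MvPolynomial (Fin 3) k) * this
      · have e : ∀ p, (⟨q'.X, q'.Y, q'.n + q'.ev ι D'.a, q'.w⟩ : Quad C).ev ι p = q'.ev ι p :=
          fun p => rfl
        simp only [e]
        linear_combination hrel'.r1 + (q'.ev ι D'.a * q'.n + (q'.ev ι D'.a) ^ 2) * two_C
      · have e : ∀ p, (⟨q'.X, q'.Y, q'.n + q'.ev ι D'.a, q'.w⟩ : Quad C).ev ι p = q'.ev ι p :=
          fun p => rfl
        simp only [e, Quad.ev_add, Quad.ev_mul]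
        linear_combination hrel'.r2 + (q'.ev ι D'.a * q'.ev ι D'.b1 * q'.w
          + q'.ev ι D'.a * q'.ev ι D'.e1) * two_C
      · exact ⟨hhom'.a, hhom'.c, hhom'.b0.add (hhom'.a.mul hhom'.b1), hhom'.b1,
          hhom'.e0.add (hhom'.a.mul hhom'.e1), hhom'.e1⟩
      · have h0 : cf D'.a 2 0 0 = 0 := by simpa using hN'.a200
        have e3 : cf (D'.a * D'.b1) 5 0 0 = 0 := by
          rw [cf_x (hhom'.a.mul hhom'.b1), map_mul, ← cf_x hhom'.a, h0, zero_mul]
        simp only [cf_add, e3, add_zero]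
      · have h0 : cf D'.a 0 2 0 = 0 := by simpa using hN'.a020
        have e3 : cf (D'.a * D'.b1) 0 5 0 = 0 := by
          rw [cf_y (hhom'.a.mul hhom'.b1), map_mul, ← cf_y hhom'.a, h0, zero_mul]
        simp only [cf_add, e3, add_zero]
  obtain ⟨ra, rc, rb1, rb0, -, -⟩ := h2 ι q q'' two frame.bij.1 D D'' hhom hhom'' hrel hrel'' L lam u
    u' s'' r0 r1 hR'' hs'' hr0 hr1 hu hu'
  -- scaling
  have hl : IsUnit (L 2 2) := (isUnit_map_iff π _).mp (by rw [hL]; simp)
  obtain ⟨l, hl'⟩ := hl
  have hli : ((l⁻¹ : Aˣ) : A) * L 2 2 = 1 := by rw [← hl']; simp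
  have hπl : π ((l⁻¹ : Aˣ) : A) = 1 := by
    have := congrArg π hli
    rw [map_mul, hL, map_one] at this
    simpa using this
  obtain ⟨f1, f2, f3⟩ := h4 π hctx.surj two D.a D.c D'.a D'.c
    ⟨hhom.a, hhom.c, by have : (D.map π).a = (std (0 : k)).a := by rw [hd]
                        exact this, by have : (D.map π).c = (std (0 : k)).c := by rw [hd]
                                       exact this⟩
    ⟨hhom'.a, hhom'.c, by have : (D'.map π).a = (std (0 : k)).a := by rw [hd']
                          exact this, by have : (D'.map π).c = (std (0 : k)).c := by rw [hd']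
                                         exact this⟩
    hN hN' (fun i j => ((l⁻¹ : Aˣ) : A) * L i j) (((l⁻¹ : Aˣ) : A) ^ 2 * u)
    (MvPolynomial.C (((l⁻¹ : Aˣ) : A) ^ 2) * s'') (by
      intro i j
      rw [map_mul, hπl, one_mul, hL]) hli (by rw [map_mul, map_pow, hπl, hu1]; simp)
    (hs''.C_mul _) (by rw [map_mul, hs0, mul_zero]) (by
      rw [lsub_scale L _ hhom'.a, ← hDa, ra, MvPolynomial.C_mul]
      ring) (by
      rw [lsub_scale L _ hhom'.c, ← hDc, rc]
      simp only [MvPolynomial.C_mul, MvPolynomial.C_pow]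
      ring)
  have hLl : ∀ i j, L i j = (l : A) * (if i = j then 1 else 0) := by
    intro i j
    rw [← f1 i j, ← mul_assoc, Units.mul_inv, one_mul]
  have hs3 : s'' = 0 := by
    have h6 : IsUnit (MvPolynomial.C (((l⁻¹ : Aˣ) : A) ^ 2) : MvPolynomial (Fin 3) A) :=
      ((l⁻¹).isUnit.pow 2).map MvPolynomial.C
    exact (h6.mul_right_eq_zero).mp f3
  have hb : MvPolynomial.C ((l : A) ^ 5) * D''.b0 = MvPolynomial.C u' * D.b0 := by
    have h7 : lsub L D''.b0 = MvPolynomial.C ((l : A) ^ 5) * D''.b0 := by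
      have : L = fun i j => (l : A) * (if i = j then 1 else 0) := by
        funext i j
        exact hLl i j
      rw [this, lsub_scale _ _ hhom''.b0, lsub_one]
    rw [← h7, ← rb0, hs3, mul_zero, add_zero]
  obtain ⟨v, hv⟩ := hu'
  refine ⟨v * (l⁻¹) ^ 5, ?_, ?_⟩
  · have h8 := congrArg (fun p => cf p 5 0 0) hb
    simp only [cf_C_mul] at h8
    rw [hbx, ← hv] at h8
    have h9 : ((l⁻¹ : Aˣ) : A) ^ 5 * (l : A) ^ 5 = 1 := by rw [← mul_pow]; simp
    push_cast
    linear_combination (-(cf D'.b0 5 0 0)) * h9 + ((l⁻¹ : Aˣ) : A) ^ 5 * h8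
  · have h8 := congrArg (fun p => cf p 0 5 0) hb
    simp only [cf_C_mul] at h8
    rw [hby, ← hv] at h8
    have h9 : ((l⁻¹ : Aˣ) : A) ^ 5 * (l : A) ^ 5 = 1 := by rw [← mul_pow]; simp
    push_cast
    linear_combination (-(cf D'.b0 0 5 0)) * h9 + ((l⁻¹ : Aˣ) : A) ^ 5 * h8

end Pool.Agent.H1.CM
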