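import Mathlib
import Pool.Agent.H1.CM.Targets2
import Pool.Agent.H1.CM.SBasic

open CategoryTheory AlgebraicGeometry Limits

namespace Pool.Agent.H1.CM

theorem cmpt : T_CMPT := by
  intro A A₁ A₂ _ _ _ X X₁ X₂ f f₁ f₂ D D₁ D₂ S S₁ S₂ g₁ g₂ i hi h₁ h₂
  subst hi
  obtain ⟨hV₁, h, hq₁⟩ := h₁
  obtain ⟨hV₂, h', hq₂⟩ := h₂
  have hV : ∀ U, S₂.V U = i ⁻¹ᵁ (S₁.V U) := by
    intro U
    rw [hV₂, hV₁]
    rfl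
  refine ⟨hV, (hV _).le, ?_⟩
  rw [← hq₂, ← hq₁, Quad.map_map]
  congr 1
  ext c
  exact appLE_appLE g₁ i _ _ _ _ _ _ c

end Pool.Agent.H1.CM
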