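import Mathlib
import Pool.Agent.H1.CM.Targets1

namespace Pool.Agent.H1.CM

open IsLocalRing

namespace DATA

section

variable {A C : Type} [CommRing A] [CommRing C]

lemma homog_neg {p : MvPolynomial (Fin 3) A} {d : ℕ} (h : p.IsHomogeneous d) :
    (-p).IsHomogeneous d := by
  have := (MvPolynomial.isHomogeneous_zero (Fin 3) A d).sub h
  rwa [zero_sub] at this

lemma ev_neg (ι : A →+* C) (q : Quad C) (p : MvPolynomial (Fin 3) A) :
    q.ev ι (-p) = -q.ev ι p := by
  unfold Quad.ev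
  rw [← MvPolynomial.coe_eval₂Hom, map_neg]

lemma ev_zero (ι : A →+* C) (q : Quad C) : q.ev ι 0 = 0 := by
  unfold Quad.ev
  rw [MvPolynomial.eval₂_zero]

lemma forms_n {D : Data A} (hD : D.Homog) : Forms4 4 ![-D.c, -D.a, 0, 0] := by
  constructor
  · intro t ht
    fin_cases t
    · exact homog_neg hD.c
    · exact homog_neg hD.a
    · simp [dgN] at ht
    · simp [dgN] at ht
  · intro t ht
    fin_cases t
    · simp [dgN] at ht
    · simp [dgN] at ht
    · rfl
    · rfl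

lemma forms_w {D : Data A} (hD : D.Homog) : Forms4 10 ![-D.e0, -D.e1, -D.b0, -D.b1] := by
  constructor
  · intro t ht
    fin_cases t
    · exact homog_neg hD.e0
    · exact homog_neg hD.e1
    · exact homog_neg hD.b0
    · exact homog_neg hD.b1
  · intro t ht
    fin_cases t
    · simp [dgN] at ht
    · simp [dgN] at ht
    · simp [dgN] at ht
    · simp [dgN] at ht

lemma rel_n {ι : A →+* C} {q : Quad C} {D : Data A} (h : q.Rel ι D) :
    ev4 ι q ![-D.c, -D.a, 0, 0] = q.n ^ 2 := by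
  unfold ev4
  rw [Fin.sum_univ_four]
  simp only [Matrix.cons_val_zero, Matrix.cons_val_one, Matrix.cons_val, Quad.e, ev_neg, ev_zero]
  linear_combination -h.r1

lemma rel_w {ι : A →+* C} {q : Quad C} {D : Data A} (h : q.Rel ι D) :
    ev4 ι q ![-D.e0, -D.e1, -D.b0, -D.b1] = q.w ^ 2 := by
  unfold ev4
  rw [Fin.sum_univ_four]
  simp only [Matrix.cons_val_zero, Matrix.cons_val_one, Matrix.cons_val, Quad.e, ev_neg]
  linear_combination -h.r2

lemma pow_split (a b : C) (m n : ℕ) : a ^ n * b ^ (m * n) = (a * b ^ m) ^ n := by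
  rw [mul_pow, pow_mul]

end

end DATA

open DATA in
theorem data (h1 : T_BAS) (h2 : T_H0) (h3 : T_FORM) (h4 : T_UNQ) : T_DATA := by
  intro A k C C₀ _ _ _ _ _ _ π ι B ι₀ q₀ ρ hctx D₀ hD₀ hrel₀ q hq hco
  have frame := h1 π ι B ι₀ q₀ ρ hctx q hq hco
  have hn : InSpan ι q.mon (regd ((4 : ℕ) : ℤ) ∅) (q.n ^ 2) := by
    refine (h2 ι B q frame hco 4 _).mpr ⟨pow_mem hco.z.2.2.1 2, ?_, ?_⟩
    · rw [show (4 : ℕ) = 2 * 2 from rfl, pow_split]
      exact pow_mem hco.x.2.2.1 2
    · rw [show (4 : ℕ) = 2 * 2 from rfl, pow_split]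
      exact pow_mem hco.y.2.2.1 2
  have hw : InSpan ι q.mon (regd ((10 : ℕ) : ℤ) ∅) (q.w ^ 2) := by
    refine (h2 ι B q frame hco 10 _).mpr ⟨pow_mem hco.z.2.2.2 2, ?_, ?_⟩
    · rw [show (10 : ℕ) = 5 * 2 from rfl, pow_split]
      exact pow_mem hco.x.2.2.2 2
    · rw [show (10 : ℕ) = 5 * 2 from rfl, pow_split]
      exact pow_mem hco.y.2.2.2 2
  obtain ⟨P, hP, eP⟩ := (h3 ι q 4 _).mp hn
  obtain ⟨R, hR, eR⟩ := (h3 ι q 10 _).mp hw
  have hP2 : P 2 = 0 := hP.zero 2 (by simp [dgN])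
  have hP3 : P 3 = 0 := hP.zero 3 (by simp [dgN])
  have hD : Data.Homog (⟨-P 1, -P 0, -R 2, -R 3, -R 0, -R 1⟩ : Data A) := by
    constructor
    · exact homog_neg (hP.hom 1 (by simp [dgN]))
    · exact homog_neg (hP.hom 0 (by simp [dgN]))
    · exact homog_neg (hR.hom 2 (by simp [dgN]))
    · exact homog_neg (hR.hom 3 (by simp [dgN]))
    · exact homog_neg (hR.hom 0 (by simp [dgN]))
    · exact homog_neg (hR.hom 1 (by simp [dgN]))
  have hrel : q.Rel ι (⟨-P 1, -P 0, -R 2, -R 3, -R 0, -R 1⟩ : Data A) := by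
    constructor
    · unfold ev4 at eP
      rw [Fin.sum_univ_four, hP2, hP3] at eP
      simp only [Quad.e, Matrix.cons_val_zero, Matrix.cons_val_one, Matrix.cons_val, ev_zero] at eP
      simp only [ev_neg]
      linear_combination eP
    · unfold ev4 at eR
      rw [Fin.sum_univ_four] at eR
      simp only [Quad.e, Matrix.cons_val_zero, Matrix.cons_val_one, Matrix.cons_val] at eR
      simp only [ev_neg]
      linear_combination eR
  refine ⟨_, hD, hrel, ?_⟩
  have hrelk := hrel.map π ρ (ι' := ι₀) hctx.comm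
  rw [hq] at hrelk
  have hDk : (Data.map π (⟨-P 1, -P 0, -R 2, -R 3, -R 0, -R 1⟩ : Data A)).Homog :=
    ⟨hD.a.map π, hD.c.map π, hD.b0.map π, hD.b1.map π, hD.e0.map π, hD.e1.map π⟩
  have un := h4 ι₀ q₀ hctx.fr₀.1 4 _ _ (forms_n hDk) (forms_n hD₀)
    ((rel_n hrelk).trans (rel_n hrel₀).symm)
  have uw := h4 ι₀ q₀ hctx.fr₀.1 10 _ _ (forms_w hDk) (forms_w hD₀)
    ((rel_w hrelk).trans (rel_w hrel₀).symm)
  have n0 := congrFun un 0
  have n1 := congrFun un 1
  have w0 := congrFun uw 0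
  have w1 := congrFun uw 1
  have w2 := congrFun uw 2
  have w3 := congrFun uw 3
  simp only [Matrix.cons_val_zero, Matrix.cons_val_one, Matrix.cons_val] at n0 n1 w0 w1 w2 w3
  ext1
  · exact neg_injective n1
  · exact neg_injective n0
  · exact neg_injective w2
  · exact neg_injective w3
  · exact neg_injective w0
  · exact neg_injective w1

end Pool.Agent.H1.CM
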