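import Mathlib
import Pool.Agent.H1.CM.Targets2

open CategoryTheory AlgebraicGeometry Limits

namespace Pool.Agent.H1.CM

theorem ex (h1 : T_HOM) (h2 : T_LINB) (h3 : T_NFX) (_h4 : T_BAS) : T_EX := by
  intro A k _ _ _ _ π hπ two X X₀ f s₀ i hfl hcart S₀
  obtain ⟨-, hU, -⟩ := h1 π hπ f s₀ i hcart
  choose V hV using fun S => hU (S₀.V S)
  obtain ⟨h, hctx⟩ := h2 π hπ two f s₀ i hfl hcart S₀ V hV
  obtain ⟨q, D, hq, hco, hhom, hrel, hmap, hnf⟩ := h3 π _ _ _ _ _ hctx two S₀.rel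
  have had : Adapted π f S₀ i V q D := by
    refine ⟨hcart, hV, ⟨h, hq⟩, hco, hrel, hhom, hmap⟩
  exact ⟨V, q, D, had, hnf⟩

end Pool.Agent.H1.CM
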