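import Mathlib
import Pool.Agent.H1.CM.Targets1

namespace Pool.Agent.H1.CM

open IsLocalRing

theorem exq (h1 : T_PX) (h2 : T_LS) (_h3 : T_RED) : T_EXQ := by
  intro A k C C₀ _ _ _ _ _ _ π ι B ι₀ q₀ ρ hctx
  obtain ⟨X, Y, hX, hY, X2, Y2, X0, YX0, Y1, XY1⟩ := h1 π ι B ι₀ q₀ ρ hctx
  have mono := hctx.mono
  have m02 : B {0} ≤ B {0, 2} := mono _ _ (by simp) (by decide)
  have m20 : B {2} ≤ B {2, 0} := mono _ _ (by simp) (by decide)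
  -- the ratios
  have hr : ∀ d : ℕ, ∀ i j : Fin 3,
      (((![X ^ d, Y ^ d, 1] : Fin 3 → Cˣ) i * ((![X ^ d, Y ^ d, 1] : Fin 3 → Cˣ) j)⁻¹ : Cˣ) : C)
        ∈ B {i, j} := by
    intro d
    have hle : ∀ i j : Fin 3, B {i} ≤ B {i, j} := fun i j => mono _ _ (by simp) (by simp)
    have hle' : ∀ i j : Fin 3, B {j} ≤ B {i, j} := fun i j => mono _ _ (by simp) (by simp)
    intro i j
    fin_cases i <;> fin_cases j
    · simp only [Fin.zero_eta, Matrix.cons_val_zero, mul_inv_cancel, Units.val_one]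
      exact one_mem _
    · have : (((X ^ d) * (Y ^ d)⁻¹ : Cˣ) : C) = ((X : C) * ((Y⁻¹ : Cˣ) : C)) ^ d := by
        rw [← inv_pow, Units.val_mul, Units.val_pow_eq_pow_val, Units.val_pow_eq_pow_val, mul_pow]
      change (((X ^ d) * (Y ^ d)⁻¹ : Cˣ) : C) ∈ B {0, 1}
      rw [this]
      exact pow_mem (hle' 0 1 XY1) d
    · have : (((X ^ d) * (1 : Cˣ)⁻¹ : Cˣ) : C) = (X : C) ^ d := by simp
      change (((X ^ d) * (1 : Cˣ)⁻¹ : Cˣ) : C) ∈ B {0, 2}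
      rw [this]
      exact pow_mem (hle' 0 2 X2) d
    · have : (((Y ^ d) * (X ^ d)⁻¹ : Cˣ) : C) = ((Y : C) * ((X⁻¹ : Cˣ) : C)) ^ d := by
        rw [← inv_pow, Units.val_mul, Units.val_pow_eq_pow_val, Units.val_pow_eq_pow_val, mul_pow]
      change (((Y ^ d) * (X ^ d)⁻¹ : Cˣ) : C) ∈ B {1, 0}
      rw [this]
      exact pow_mem (hle' 1 0 YX0) d
    · change (((Y ^ d) * (Y ^ d)⁻¹ : Cˣ) : C) ∈ B {1, 1}
      rw [mul_inv_cancel, Units.val_one]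
      exact one_mem _
    · have : (((Y ^ d) * (1 : Cˣ)⁻¹ : Cˣ) : C) = (Y : C) ^ d := by simp
      change (((Y ^ d) * (1 : Cˣ)⁻¹ : Cˣ) : C) ∈ B {1, 2}
      rw [this]
      exact pow_mem (hle' 1 2 Y2) d
    · have : ((1 * (X ^ d)⁻¹ : Cˣ) : C) = (((X⁻¹ : Cˣ) : C)) ^ d := by
        rw [one_mul, ← inv_pow, Units.val_pow_eq_pow_val]
      change ((1 * (X ^ d)⁻¹ : Cˣ) : C) ∈ B {2, 0}
      rw [this]
      exact pow_mem (hle' 2 0 X0) d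
    · have : ((1 * (Y ^ d)⁻¹ : Cˣ) : C) = (((Y⁻¹ : Cˣ) : C)) ^ d := by
        rw [one_mul, ← inv_pow, Units.val_pow_eq_pow_val]
      change ((1 * (Y ^ d)⁻¹ : Cˣ) : C) ∈ B {2, 1}
      rw [this]
      exact pow_mem (hle' 2 1 Y1) d
    · change ((1 * (1 : Cˣ)⁻¹ : Cˣ) : C) ∈ B {2, 2}
      simp
  -- lifting a section
  have hls : ∀ (d : ℕ) (s₀ : C₀), InSpan ι₀ q₀.mon (regd d ∅) s₀ →
      ∃ s : C, ρ s = s₀ ∧ s ∈ B {2} ∧ s * ((X⁻¹ : Cˣ) : C) ^ d ∈ B {0} ∧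
        s * ((Y⁻¹ : Cˣ) : C) ^ d ∈ B {1} := by
    intro d s₀ hs₀
    obtain ⟨s, hs, hi⟩ := h2 π ι B ι₀ q₀ ρ hctx d ![X ^ d, Y ^ d, 1] (hr d)
      (by simp [hX]) (by simp [hY]) (by simp) s₀ hs₀
    refine ⟨s, hs, ?_, ?_, ?_⟩
    · have := hi 2
      simpa using this
    · have h := hi 0
      have e : ((((![X ^ d, Y ^ d, 1] : Fin 3 → Cˣ) 0)⁻¹ : Cˣ) : C) = ((X⁻¹ : Cˣ) : C) ^ d := by
        change (((X ^ d)⁻¹ : Cˣ) : C) = _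
        rw [← inv_pow, Units.val_pow_eq_pow_val]
      rw [e] at h
      exact h
    · have h := hi 1
      have e : ((((![X ^ d, Y ^ d, 1] : Fin 3 → Cˣ) 1)⁻¹ : Cˣ) : C) = ((Y⁻¹ : Cˣ) : C) ^ d := by
        change (((Y ^ d)⁻¹ : Cˣ) : C) = _
        rw [← inv_pow, Units.val_pow_eq_pow_val]
      rw [e] at h
      exact h
  have hn0 : InSpan ι₀ q₀.mon (regd (2 : ℕ) ∅) q₀.n := by
    rw [← Quad.mon_n]
    refine InSpan.of_mem ?_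
    intro r _
    fin_cases r <;> simp [expo, dg]
  have hw0 : InSpan ι₀ q₀.mon (regd (5 : ℕ) ∅) q₀.w := by
    rw [← Quad.mon_w]
    refine InSpan.of_mem ?_
    intro r _
    fin_cases r <;> simp [expo, dg]
  obtain ⟨n, hn, n2, n0, n1⟩ := hls 2 q₀.n hn0
  obtain ⟨w, hw, w2, w0, w1⟩ := hls 5 q₀.w hw0
  refine ⟨⟨X, Y, n, w⟩, ?_, ⟨⟨X2, Y2, n2, w2⟩, ⟨X0, YX0, n0, w0⟩, ⟨Y1, XY1, n1, w1⟩⟩⟩
  ext
  · exact hX
  · exact hY
  · exact hn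
  · exact hw

end Pool.Agent.H1.CM
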