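import Mathlib
import Pool.Agent.H1.CM.Targets2
import Pool.Agent.H1.CM.Coef

open CategoryTheory AlgebraicGeometry Limits

namespace Pool.Agent.H1.CM

namespace F2

lemma two_of {A : Type} [CommRing A] (h : ((2 : ℕ) : A) = 0) : (2 : A) = 0 := by
  simpa using h

/-- The `y⁵`-coefficient of `b0` is a unit. -/
lemma unit_y {A k : Type} [CommRing A] [IsLocalRing A] [Field k] (π : A →+* k)
    (hπ : Function.Surjective π) (D : Data A) (hD : D.map π = std (0 : k)) :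
    IsUnit (cf D.b0 0 5 0) := by
  have h : π (cf D.b0 0 5 0) = 1 := by
    rw [← cf_map]
    have : MvPolynomial.map π D.b0 = (std (0 : k)).b0 := by rw [← hD]; rfl
    rw [this, cf_b0Std]
    simp
  have : IsLocalHom π := Function.Surjective.isLocalHom π hπ
  exact (isUnit_map_iff π _).mp (by rw [h]; exact isUnit_one)

lemma normalMod_map {A A' : Type} [CommRing A] [CommRing A'] (φ : A →+* A')
    {a c : MvPolynomial (Fin 3) A} (h : NormalMod ⊥ a c) :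
    NormalMod ⊥ (MvPolynomial.map φ a) (MvPolynomial.map φ c) := by
  have e : ∀ x : A, x ∈ (⊥ : Ideal A) → φ x ∈ (⊥ : Ideal A') := by
    intro x hx
    rw [Ideal.mem_bot] at hx ⊢
    rw [hx, map_zero]
  have e1 : ∀ x : A, x - 1 ∈ (⊥ : Ideal A) → φ x - 1 ∈ (⊥ : Ideal A') := by
    intro x hx
    have := e _ hx
    simpa using this
  constructor <;> rw [cf_map]
  · exact e _ h.a200
  · exact e _ h.a020
  · exact e _ h.a101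
  · exact e _ h.a011
  · exact e1 _ h.a110
  · exact e _ h.c400
  · exact e _ h.c040
  · exact e1 _ h.c301
  · exact e1 _ h.c031
  · exact e _ h.c310
  · exact e _ h.c220
  · exact e _ h.c130
  · exact e _ h.c211
  · exact e _ h.c121
  · exact e _ h.c112

end F2

open F2 in
theorem f2 (h1 : T_EX) (h2 : T_UN) (h3 : T_PB) : T_F2 := by
  intro k _ two X₀ s₀ S₀
  -- the chosen data
  have hex : ∀ (𝓧 : Family s₀), InChar 2 𝓧 → ∃ (i : X₀ ⟶ 𝓧.X) (V : Finset (Fin 3) → 𝓧.X.Opens)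
      (q : Quad Γ(𝓧.X, V Finset.univ)) (D : Data 𝓧.A),
      Adapted 𝓧.π 𝓧.f S₀ i V q D ∧ NormalMod ⊥ D.a D.c := by
    intro 𝓧 h
    obtain ⟨i, hi⟩ := 𝓧.fibre
    obtain ⟨V, q, D, hA, hN⟩ := h1 𝓧.π 𝓧.surj (two_of h) 𝓧.f s₀ i 𝓧.flat hi S₀
    exact ⟨i, V, q, D, hA, hN⟩
  choose i V q D hA hN using hex
  have hval : ∀ (𝓧 : Family s₀) (h : InChar 2 𝓧) (i' : X₀ ⟶ 𝓧.X)
      (V' : Finset (Fin 3) → 𝓧.X.Opens) (q' : Quad Γ(𝓧.X, V' Finset.univ)) (D' : Data 𝓧.A),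
      Adapted 𝓧.π 𝓧.f S₀ i' V' q' D' → NormalMod ⊥ D'.a D'.c →
      (cf (D 𝓧 h).b0 5 0 0 * Ring.inverse (cf (D 𝓧 h).b0 0 5 0)) * cf D'.b0 0 5 0
        = cf D'.b0 5 0 0 := by
    intro 𝓧 h i' V' q' D' hA' hN'
    obtain ⟨v, hv1, hv2⟩ := h2 𝓧.π 𝓧.surj (two_of h) 𝓧.f s₀ 𝓧.flat S₀ (i 𝓧 h) i' (V 𝓧 h) V'
      (q 𝓧 h) q' (D 𝓧 h) D' (hA 𝓧 h) hA' (hN 𝓧 h) hN'
    have hu := unit_y 𝓧.π 𝓧.surj (D 𝓧 h) (hA 𝓧 h).dred
    rw [hv1, hv2]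
    have hi : Ring.inverse (cf (D 𝓧 h).b0 0 5 0) * cf (D 𝓧 h).b0 0 5 0 = 1 :=
      Ring.inverse_mul_cancel _ hu
    linear_combination (↑v * cf (D 𝓧 h).b0 5 0 0) * hi
  refine ⟨{ val := fun 𝓧 h => cf (D 𝓧 h).b0 5 0 0 * Ring.inverse (cf (D 𝓧 h).b0 0 5 0)
            natural := ?_ }, ?_⟩
  · intro 𝓧' 𝓧 β h' h
    obtain ⟨i', -, hA'⟩ := h3 𝓧.π 𝓧'.π β.φ 𝓧.surj 𝓧'.surj β.comp 𝓧.f 𝓧'.f β.g β.cart s₀ S₀
      (i 𝓧 h) (V 𝓧 h) (q 𝓧 h) (D 𝓧 h) (hA 𝓧 h)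
    have e := hval 𝓧' h' i' _ _ _ hA' (normalMod_map β.φ (hN 𝓧 h))
    have hu := unit_y 𝓧.π 𝓧.surj (D 𝓧 h) (hA 𝓧 h).dred
    have hu' : IsUnit (β.φ (cf (D 𝓧 h).b0 0 5 0)) := hu.map β.φ
    have e' : (cf (D 𝓧' h').b0 5 0 0 * Ring.inverse (cf (D 𝓧' h').b0 0 5 0)) *
        β.φ (cf (D 𝓧 h).b0 0 5 0) = β.φ (cf (D 𝓧 h).b0 5 0 0) := by
      have e2 := e
      simp only [Data.map, cf_map] at e2
      exact e2
    have hi : Ring.inverse (cf (D 𝓧 h).b0 0 5 0) * cf (D 𝓧 h).b0 0 5 0 = 1 :=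
      Ring.inverse_mul_cancel _ hu
    have hi' := congrArg β.φ hi
    rw [map_mul, map_one] at hi'
    refine hu'.mul_right_cancel ?_
    rw [e', map_mul, mul_assoc, hi', mul_one]
  · intro 𝓧 h i' V' q' D' hA' hN'
    exact hval 𝓧 h i' V' q' D' hA' hN'

end Pool.Agent.H1.CM
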