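import Mathlib
import Pool.Agent.H1.CM.Targets2
import Pool.Agent.H1.CM.Coef

open CategoryTheory AlgebraicGeometry Limits

namespace Pool.Agent.H1.CM

namespace FINAL

lemma comp_evt {A B : Type} [CommRing A] [CommRing B] (φ : A →+* B) (t : A) :
    φ.comp (evt t) = evt (φ t) := by
  unfold evt
  refine Polynomial.ringHom_ext' ?_ ?_
  · exact RingHom.ext_int _ _
  · simp

lemma evt_X {A : Type} [CommRing A] (t : A) : evt t Polynomial.X = t := by
  simp [evt]

lemma spec_comp {A B C : Type} [CommRing A] [CommRing B] [CommRing C] (φ : A →+* B) (ψ : B →+* C) :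
    Spec.map (CommRingCat.ofHom (ψ.comp φ))
      = Spec.map (CommRingCat.ofHom ψ) ≫ Spec.map (CommRingCat.ofHom φ) := by
  rw [← Spec.map_comp]
  rfl

/-- Lifting a base change. -/
lemma lift_square {P A B : Type} [CommRing P] [CommRing A] [CommRing B] {X XA XB : Scheme.{0}}
    {f : X ⟶ Spec (CommRingCat.of P)} {fA : XA ⟶ Spec (CommRingCat.of A)}
    {fB : XB ⟶ Spec (CommRingCat.of B)} {gA : XA ⟶ X} {gB : XB ⟶ X} {α : P →+* A} {β : P →+* B}
    (hA : IsPullback gA fA f (Spec.map (CommRingCat.ofHom α)))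
    (hB : IsPullback gB fB f (Spec.map (CommRingCat.ofHom β))) (φ : A →+* B)
    (h : φ.comp α = β) :
    ∃ g : XB ⟶ XA, g ≫ gA = gB ∧ IsPullback g fB fA (Spec.map (CommRingCat.ofHom φ)) := by
  subst h
  have hw : gB ≫ f = (fB ≫ Spec.map (CommRingCat.ofHom φ)) ≫ Spec.map (CommRingCat.ofHom α) := by
    rw [hB.w, spec_comp, Category.assoc]
  refine ⟨hA.lift gB (fB ≫ Spec.map (CommRingCat.ofHom φ)) hw, hA.lift_fst _ _ _, ?_⟩
  refine IsPullback.of_right (h₁₂ := gA) (v₁₃ := f) (h₂₂ := Spec.map (CommRingCat.ofHom α)) ?_ ?_ hA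
  · rw [hA.lift_fst, ← spec_comp]
    exact hB
  · exact hA.lift_snd _ _ _

/-- The symmetry of the base. -/
lemma sym_isIso : IsIso (Spec.map (CommRingCat.ofHom (evt (2 - Polynomial.X : Polynomial ℤ)))) := by
  have h : (evt (2 - Polynomial.X : Polynomial ℤ)).comp (evt (2 - Polynomial.X : Polynomial ℤ))
      = RingHom.id _ := by
    rw [comp_evt]
    refine Polynomial.ringHom_ext' (RingHom.ext_int _ _) ?_
    rw [evt_X]
    simp [evt]
  have h2 : Spec.map (CommRingCat.ofHom (evt (2 - Polynomial.X : Polynomial ℤ))) ≫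
      Spec.map (CommRingCat.ofHom (evt (2 - Polynomial.X : Polynomial ℤ))) = 𝟙 _ := by
    rw [← spec_comp, h]
    simp
  exact ⟨_, h2, h2⟩

end FINAL

open FINAL in
theorem final : T_FINAL := by
  intro hM hBC hCM hI hSm hAm hF2 hFam hR hFC k _ _ _
  have two : (2 : k) = 0 := by
    have := CharP.cast_eq_zero k 2
    simpa using this
  obtain ⟨X, f, S, hfl, hpr, hfp, T, hT⟩ := hM
  let s₀ : pullback f (Spec.map (CommRingCat.ofHom (evt (0 : k)))) ⟶ Spec (CommRingCat.of k) :=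
    pullback.snd _ _
  have hpb : IsPullback (pullback.fst f (Spec.map (CommRingCat.ofHom (evt (0 : k))))) s₀ f
      (Spec.map (CommRingCat.ofHom (evt (0 : k)))) := IsPullback.of_hasPullback _ _
  obtain ⟨S₀, hS₀⟩ := hBC (evt (0 : k)) f s₀ _ hpb S (D' := std 0) (by rw [std_map, evt_X])
  have hint : IsIntegral (pullback f (Spec.map (CommRingCat.ofHom (evt (0 : k))))) := hI two s₀ S₀
  obtain ⟨F₂, hF₂⟩ := hF2 two s₀ S₀
  refine ⟨_, s₀, ⟨hint, inferInstance, hSm two s₀ S₀, hAm two s₀ S₀⟩, F₂, ?_⟩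
  rintro ⟨F, hF⟩
  obtain ⟨Λ, O, E, _, _, _, _, _, _, _, _, _, πΛ, πO, πE, θ₀, θ₂, χ, e, sΛ, sO, sE, c0, c2, cχ, he,
    h0, h2, hE2, hlast⟩ := hR k
  have hχe : πE (χ e) = 0 := by
    rw [← RingHom.comp_apply, cχ, he]
  obtain ⟨XΛ, fΛ, gΛ, iΛ, pΛ, qΛ, wΛ, flΛ, prΛ, fpΛ⟩ := hFam f hfl hpr hfp s₀ _ hpb πΛ e he
  obtain ⟨XO, fO, gO, iO, pO, qO, wO, flO, prO, fpO⟩ :=
    hFam f hfl hpr hfp s₀ _ hpb πO 0 (map_zero πO)
  obtain ⟨XE, fE, gE, iE, pE, qE, wE, flE, prE, fpE⟩ :=
    hFam f hfl hpr hfp s₀ _ hpb πE (χ e) hχe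
  -- the families
  let FΛ : Family s₀ := { A := Λ, π := πΛ, surj := sΛ, X := XΛ, f := fΛ, flat := flΛ,
                          proper := prΛ, finPres := fpΛ, fibre := ⟨iΛ, qΛ⟩ }
  let FO : Family s₀ := { A := O, π := πO, surj := sO, X := XO, f := fO, flat := flO,
                          proper := prO, finPres := fpO, fibre := ⟨iO, qO⟩ }
  let FE : Family s₀ := { A := E, π := πE, surj := sE, X := XE, f := fE, flat := flE,
                          proper := prE, finPres := fpE, fibre := ⟨iE, qE⟩ }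
  -- the first base change
  obtain ⟨g₁, -, hg₁⟩ := lift_square pΛ pO θ₀ (by rw [comp_evt, h0])
  let β₁ : Family.BaseChange FO FΛ := { φ := θ₀, comp := c0, g := g₁, cart := hg₁ }
  -- the second base change
  have hsym : IsPullback T.hom f f
      (Spec.map (CommRingCat.ofHom (evt (2 - Polynomial.X : Polynomial ℤ)))) := by
    haveI := sym_isIso
    exact IsPullback.of_horiz_isIso ⟨hT⟩
  have pO2 : IsPullback (gO ≫ T.hom) fO f (Spec.map (CommRingCat.ofHom (evt (2 : O)))) := by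
    have h := IsPullback.paste_horiz pO hsym
    rw [← spec_comp, comp_evt] at h
    have h3 : evt (0 : O) (2 - Polynomial.X) = 2 := by simp [evt]
    rw [h3] at h
    exact h
  obtain ⟨g₂, -, hg₂⟩ := lift_square pΛ pO2 θ₂ (by rw [comp_evt, h2])
  let β₂ : Family.BaseChange FO FΛ := { φ := θ₂, comp := c2, g := g₂, cart := hg₂ }
  -- the third base change
  obtain ⟨g₃, -, hg₃⟩ := lift_square pΛ pE χ (by rw [comp_evt])
  let β₃ : Family.BaseChange FE FΛ := { φ := χ, comp := cχ, g := g₃, cart := hg₃ }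
  have e1 : θ₀ (F.val FΛ trivial) = F.val FO trivial := F.natural FO FΛ β₁ trivial trivial
  have e2 : θ₂ (F.val FΛ trivial) = F.val FO trivial := F.natural FO FΛ β₂ trivial trivial
  have e3 : χ (F.val FΛ trivial) = F.val FE trivial := F.natural FE FΛ β₃ trivial trivial
  have hE : InChar 2 FE := by
    change ((2 : ℕ) : E) = 0
    simpa using hE2
  have e4 : F.val FE trivial = F₂.val FE hE := hF FE hE
  obtain ⟨SE, hSE⟩ := hBC (evt (χ e)) f fE gE pE S (D' := std (χ e)) (by rw [std_map, evt_X])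
  have hc : Compat SE S₀ iE := hCM f fE s₀ S SE S₀ gE _ iE wE hSE hS₀
  have hAd : Adapted πE fE S₀ iE SE.V SE.q (std (χ e)) :=
    { cart := qE
      pre := fun U => (hc.1 U).symm
      red := hc.2
      coord := hFC _ _ _ SE.frame
      rel := SE.rel
      hom := std_hom _
      dred := by rw [std_map, hχe] }
  have e5 : F₂.val FE hE * cf (std (χ e)).b0 0 5 0 = cf (std (χ e)).b0 5 0 0 :=
    hF₂ FE hE iE SE.V SE.q (std (χ e)) hAd (normalMod_std _ _)
  rw [cf_b0Std, cf_b0Std] at e5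
  have e6 : F₂.val FE hE = 1 - χ e := by simpa using e5
  exact hlast (F.val FΛ trivial) (e1.trans e2.symm) (e3.trans (e4.trans e6))

end Pool.Agent.H1.CM
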