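import Mathlib
import Pool.Agent.H1.CM.Targets2
import Pool.Agent.H1.CM.SBasic
import Pool.Agent.H1.CMX.FINAL

open CategoryTheory AlgebraicGeometry Limits

namespace Pool.Agent.H1.CM

theorem fam : T_FAM := by
  intro k _ X X₀ f hfl hpr hfp s₀ g₀ h0 A _ π t ht
  have hp : IsPullback (pullback.fst f (Spec.map (CommRingCat.ofHom (evt t))))
      (pullback.snd f (Spec.map (CommRingCat.ofHom (evt t)))) f
      (Spec.map (CommRingCat.ofHom (evt t))) := IsPullback.of_hasPullback _ _
  obtain ⟨i, hi1, hi2⟩ := FINAL.lift_square hp h0 π (by rw [FINAL.comp_evt, ht])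
  exact ⟨_, _, _, i, hp, hi2, hi1, inferInstance, inferInstance, inferInstance⟩

end Pool.Agent.H1.CM
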