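import Mathlib
import Pool.Agent.H1.CM.Targets2
import Pool.Agent.H1.CM.Coef
import Pool.Agent.H1.CMX.FINAL
import Pool.Agent.H1.CMX.AMP2

open CategoryTheory AlgebraicGeometry Limits

namespace Pool.Agent.H1.CM

/-- The main statement, with 2-forms as functions on pairs of derivations. -/
def Main2 : Prop :=
  ∀ (k : Type) [Field k] [IsAlgClosed k] [CharP k 2],
    ∃ (X₀ : Scheme.{0}) (s₀ : X₀ ⟶ Spec (CommRingCat.of k)), CanonicallyPolarized s₀ ∧
      ∃ F₂ : NaturalFunction s₀ (InChar 2),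
        ¬ ∃ F : NaturalFunction s₀ (fun _ => True),
          ∀ (𝓧 : Family s₀) (h : InChar 2 𝓧), F.val 𝓧 trivial = F₂.val 𝓧 h

open FINAL in
theorem final2 (hM : T_MODEL) (hBC : T_BC) (hCM : T_CMPT) (hI : T_INT) (hSm : T_SMO)
    (hAm : T_AMP) (hF2 : T_F2) (hFam : T_FAM) (hR : T_RINGS) (hFC : T_FC) (hFF : T_FFX) :
    Main2 := by
  intro k _ _ _
  have two : (2 : k) = 0 := by
    have := CharP.cast_eq_zero k 2
    simpa using this
  obtain ⟨X, f, S, hfl, hpr, hfp, T, hT⟩ := hM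
  let s₀ : pullback f (Spec.map (CommRingCat.ofHom (evt (0 : k)))) ⟶ Spec (CommRingCat.of k) :=
    pullback.snd _ _
  have hpb : IsPullback (pullback.fst f (Spec.map (CommRingCat.ofHom (evt (0 : k))))) s₀ f
      (Spec.map (CommRingCat.ofHom (evt (0 : k)))) := IsPullback.of_hasPullback _ _
  obtain ⟨S₀, hS₀⟩ := hBC (evt (0 : k)) f s₀ _ hpb S (D' := std 0) (by rw [std_map, evt_X])
  have hint : IsIntegral (pullback f (Spec.map (CommRingCat.ofHom (evt (0 : k))))) := hI two s₀ S₀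
  obtain ⟨F₂, hF₂⟩ := hF2 two s₀ S₀
  refine ⟨_, s₀, ⟨hint, inferInstance, hSm two s₀ S₀, amp2 hAm hFF two s₀ S₀⟩, F₂, ?_⟩
  rintro ⟨F, hF⟩
  obtain ⟨Λ, O, E, _, _, _, _, _, _, _, _, _, πΛ, πO, πE, θ₀, θ₂, χ, e, sΛ, sO, sE, c0, c2, cχ, he,
    h0, h2, hE2, hlast⟩ := hR k
  have hχe : πE (χ e) = 0 := by
    rw [← RingHom.comp_apply, cχ, he]
  obtain ⟨XΛ, fΛ, gΛ, iΛ, pΛ, qΛ, wΛ, flΛ, prΛ, fpΛ⟩ := hFam f hfl hpr hfp s₀ _ hpb πΛ e he
  obtain ⟨XO, fO, gO, iO, pO, qO, wO, flO, prO, fpO⟩ :=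
    hFam f hfl hpr hfp s₀ _ hpb πO 0 (map_zero πO)
  obtain ⟨XE, fE, gE, iE, pE, qE, wE, flE, prE, fpE⟩ :=
    hFam f hfl hpr hfp s₀ _ hpb πE (χ e) hχe
  -- the families
  let FΛ : Family s₀ := { A := Λ, π := πΛ, surj := sΛ, X := XΛ, f := fΛ, flat := flΛ,
                          proper := prΛ, finPres := fpΛ, fibre := ⟨iΛ, qΛ⟩ }
  let FO : Family s₀ := { A := O, π := πO, surj := sO, X := XO, f := fO, flat := flO,
                          proper := prO, finPres := fpO, fibre := ⟨iO, qO⟩ }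
  let FE : Family s₀ := { A := E, π := πE, surj := sE, X := XE, f := fE, flat := flE,
                          proper := prE, finPres := fpE, fibre := ⟨iE, qE⟩ }
  -- the first base change
  obtain ⟨g₁, -, hg₁⟩ := lift_square pΛ pO θ₀ (by rw [comp_evt, h0])
  let β₁ : Family.BaseChange FO FΛ := { φ := θ₀, comp := c0, g := g₁, cart := hg₁ }
  -- the second base change
  have hsym : IsPullback T.hom f f
      (Spec.map (CommRingCat.ofHom (evt (2 - Polynomial.X : Polynomial ℤ)))) := by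
    haveI := sym_isIso
    exact IsPullback.of_horiz_isIso ⟨hT⟩
  have pO2 : IsPullback (gO ≫ T.hom) fO f (Spec.map (CommRingCat.ofHom (evt (2 : O)))) := by
    have h := IsPullback.paste_horiz pO hsym
    rw [← spec_comp, comp_evt] at h
    have h3 : evt (0 : O) (2 - Polynomial.X) = 2 := by simp [evt]
    rw [h3] at h
    exact h
  obtain ⟨g₂, -, hg₂⟩ := lift_square pΛ pO2 θ₂ (by rw [comp_evt, h2])
  let β₂ : Family.BaseChange FO FΛ := { φ := θ₂, comp := c2, g := g₂, cart := hg₂ }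
  -- the third base change
  obtain ⟨g₃, -, hg₃⟩ := lift_square pΛ pE χ (by rw [comp_evt])
  let β₃ : Family.BaseChange FE FΛ := { φ := χ, comp := cχ, g := g₃, cart := hg₃ }
  have e1 : θ₀ (F.val FΛ trivial) = F.val FO trivial := F.natural FO FΛ β₁ trivial trivial
  have e2 : θ₂ (F.val FΛ trivial) = F.val FO trivial := F.natural FO FΛ β₂ trivial trivial
  have e3 : χ (F.val FΛ trivial) = F.val FE trivial := F.natural FE FΛ β₃ trivial trivial
  have hE : InChar 2 FE := by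
    change ((2 : ℕ) : E) = 0
    simpa using hE2
  have e4 : F.val FE trivial = F₂.val FE hE := hF FE hE
  obtain ⟨SE, hSE⟩ := hBC (evt (χ e)) f fE gE pE S (D' := std (χ e)) (by rw [std_map, evt_X])
  have hc : Compat SE S₀ iE := hCM f fE s₀ S SE S₀ gE _ iE wE hSE hS₀
  have hAd : Adapted πE fE S₀ iE SE.V SE.q (std (χ e)) :=
    { cart := qE
      pre := fun U => (hc.1 U).symm
      red := hc.2
      coord := hFC _ _ _ SE.frame
      rel := SE.rel
      hom := std_hom _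
      dred := by rw [std_map, hχe] }
  have e5 : F₂.val FE hE * cf (std (χ e)).b0 0 5 0 = cf (std (χ e)).b0 5 0 0 :=
    hF₂ FE hE iE SE.V SE.q (std (χ e)) hAd (normalMod_std _ _)
  rw [cf_b0Std, cf_b0Std] at e5
  have e6 : F₂.val FE hE = 1 - χ e := by simpa using e5
  exact hlast (F.val FΛ trivial) (e1.trans e2.symm) (e3.trans (e4.trans e6))

end Pool.Agent.H1.CM
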