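import Mathlib
import Pool.Agent.H1.CM.Targets3

open CategoryTheory AlgebraicGeometry Limits

namespace Pool.Agent.H1.CM

theorem modela : T_MODELA := by
  intro hstd hfl hpr hfp hsym
  haveI : Fact (std (Polynomial.X : Polynomial ℤ)).Homog := ⟨std_hom _⟩
  obtain ⟨S, -⟩ := hstd (std (Polynomial.X : Polynomial ℤ))
  obtain ⟨T, hT⟩ := @hsym ⟨std_hom _⟩
  exact ⟨_, projStr (std (Polynomial.X : Polynomial ℤ)), S, hfl _ S, hpr _, hfp _, T, hT⟩

end Pool.Agent.H1.CM
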