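import Mathlib
import Pool.Agent.H1.CM.Targets2
import Pool.Agent.H57.CM.LOC

open CategoryTheory AlgebraicGeometry Limits

namespace Pool.Agent.H1.CM

namespace OMG

lemma dd_self {k K : Type} [Field k] [Field K] [Algebra k K] (f : K) : dd k f f = 0 := by
  unfold dd
  exact (exteriorPower.ιMulti K 2).map_eq_zero_of_eq _ (i := 0) (j := 1) rfl (by decide)

lemma eval_mem {k K : Type} [Field k] [Field K] (ι : k →+* K) (R : Subring K) (T : Fin 4 → K)
    (hι : ∀ c, ι c ∈ R) (hT : ∀ i, T i ∈ R) (p : MvPolynomial (Fin 4) k) :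
    MvPolynomial.eval₂ ι T p ∈ R := by
  rw [MvPolynomial.eval₂_eq]
  exact sum_mem fun m _ => mul_mem (hι _) (prod_mem fun i _ => pow_mem (hT i) _)

lemma minor_self {k : Type} [CommRing k] (r : Fin 3) (i : Fin 4) : minor k r i i = 0 := by
  unfold minor
  ring

lemma minor_swap {k : Type} [CommRing k] (r : Fin 3) (i j : Fin 4) :
    minor k r j i = -minor k r i j := by
  unfold minor
  ring

end OMG

open OMG in
theorem omg (h1 : T_ETA) (h2 : T_OMGA) (h3 : T_LOC) (h4 : T_JAC) (h5 : T_FFX) (h6 : T_PRES) :
    T_OMG := by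
  intro k _ two X₀ s₀ S₀ _ h
  letI alg : Algebra k X₀.functionField := (constants s₀).toAlgebra
  have hff : FFM (algebraMap k X₀.functionField) (S₀.qK h) := by
    obtain ⟨h', hf⟩ := h5 two s₀ S₀
    exact hf
  obtain ⟨η, hη, hspan, hres⟩ := h1 (S₀.qK h) two hff
  refine ⟨η, hη, hspan, ?_⟩
  intro r y hy
  obtain ⟨hc, hT, hfr⟩ := h3 two s₀ S₀ h r y hy
  obtain ⟨-, hP2⟩ := h6 (scal s₀ (S₀.V Finset.univ)) S₀.q (BX X₀ S₀.V) two S₀.frame S₀.rel r
  set T := (S₀.qK h).chart r with hTdef
  set R := localSub X₀ y with hR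
  have two_K : (2 : X₀.functionField) = 0 := by
    have := congrArg (constants s₀) two
    rwa [map_ofNat, map_zero] at this
  -- the equations in the function field
  let φ : Γ(X₀, S₀.V Finset.univ) →+* X₀.functionField :=
    (X₀.presheaf.germ (S₀.V Finset.univ) (genericPoint X₀) h).hom
  have heval : ∀ p : MvPolynomial (Fin 4) k,
      φ (MvPolynomial.eval₂ (scal s₀ (S₀.V Finset.univ)) (S₀.q.chart r) p)
        = MvPolynomial.eval₂ (constants s₀) T p := by
    intro p
    rw [MvPolynomial.hom_eval₂]
    have e1 : φ.comp (scal s₀ (S₀.V Finset.univ)) = constants s₀ :=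
      RingHom.ext (Pool.Agent.H57.CM.constants_eq s₀ _ h)
    have e3 : (fun i => φ (S₀.q.chart r i)) = T := by
      funext i
      exact (Pool.Agent.H57.CM.chart_map S₀.q φ r i).symm
    rw [e1, e3]
  have hG1 : MvPolynomial.eval₂ (constants s₀) T (G1 k r) = 0 := by
    rw [← heval, (hP2 _).mpr (Ideal.subset_span (by simp)), map_zero]
  have hG2 : MvPolynomial.eval₂ (constants s₀) T (G2 k r) = 0 := by
    rw [← heval, (hP2 _).mpr (Ideal.subset_span (by simp)), map_zero]
  -- the Jacobian criterion in the local ring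
  let ιR : k →+* R := (constants s₀).codRestrict R hc
  let TR : Fin 4 → R := fun i => ⟨T i, hT i⟩
  have hval : ∀ p : MvPolynomial (Fin 4) k, ((MvPolynomial.eval₂ ιR TR p : R) : X₀.functionField)
      = MvPolynomial.eval₂ (constants s₀) T p := by
    intro p
    have := MvPolynomial.hom_eval₂ p ιR R.subtype TR
    exact this
  have hjac := h4 ιR two r TR (Subtype.ext ((hval _).trans hG1)) (Subtype.ext ((hval _).trans hG2))
  -- coefficients
  have hone : (1 : R) ∈ Ideal.span (Set.range fun p : Fin 4 × Fin 4 =>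
      MvPolynomial.eval₂ ιR TR (minor k r p.1 p.2)) := by
    rw [hjac]
    trivial
  obtain ⟨cR, hcR⟩ := (Ideal.mem_span_range_iff_exists_fun).mp hone
  have hsum : ∑ p : Fin 4 × Fin 4, (cR p : X₀.functionField) *
      MvPolynomial.eval₂ (constants s₀) T (minor k r p.1 p.2) = 1 := by
    have := congrArg (fun z : R => (z : X₀.functionField)) hcR
    simp only [AddSubmonoidClass.coe_finsetSum, Subring.coe_mul, hval, Subring.coe_one] at this
    exact this
  -- the matrix
  choose i' j' hij hdd using fun (i j : Fin 4) (hne : i ≠ j) => hres r i j hne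
  let M : Fin 4 → Fin 4 → X₀.functionField := fun i j =>
    if hne : i = j then 0 else MvPolynomial.eval₂ (constants s₀) T
      (minor k r (i' i j hne) (j' i j hne))
  have hM : ∀ i j, M i j ∈ R := by
    intro i j
    change (if hne : i = j then 0 else MvPolynomial.eval₂ (constants s₀) T
      (minor k r (i' i j hne) (j' i j hne))) ∈ R
    split_ifs with hne
    · exact zero_mem _
    · exact eval_mem _ _ _ hc hT _
  have hddM : ∀ i j, dd k (T i) (T j) = M i j • ((S₀.qK h).gen r • η) := by
    intro i j
    change _ = (if hne : i = j then 0 else MvPolynomial.eval₂ (constants s₀) T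
      (minor k r (i' i j hne) (j' i j hne))) • _
    split_ifs with hne
    · rw [hne, dd_self, zero_smul]
    · rw [smul_smul, mul_comm]
      exact hdd i j hne
  -- every minor is an entry of `M`
  have hneg : ∀ x : X₀.functionField, -x = x := by
    intro x
    linear_combination (-x) * two_K
  have hentry : ∀ a b : Fin 4, a ≠ b → ∃ i j : Fin 4,
      MvPolynomial.eval₂ (constants s₀) T (minor k r a b) = M i j := by
    intro a b hab
    -- the complementary pair
    obtain ⟨i, j, hne, hcomp⟩ : ∃ i j : Fin 4, i ≠ j ∧ ({i, j, a, b} : Finset (Fin 4)) = Finset.univ := by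
      revert hab
      revert a b
      decide
    refine ⟨i, j, ?_⟩
    have hcc : ∀ i j a b a' b' : Fin 4, a ≠ b → ({i, j, a, b} : Finset (Fin 4)) = Finset.univ →
        ({i, j, a', b'} : Finset (Fin 4)) = Finset.univ → (a' = a ∧ b' = b) ∨ (a' = b ∧ b' = a) := by
      decide
    change _ = (if hne : i = j then 0 else MvPolynomial.eval₂ (constants s₀) T
      (minor k r (i' i j hne) (j' i j hne)))
    rw [dif_neg hne]
    rcases hcc i j a b _ _ hab hcomp (hij i j hne) with ⟨e1, e2⟩ | ⟨e1, e2⟩
    · rw [e1, e2]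
    · rw [e1, e2, minor_swap]
      have : MvPolynomial.eval₂ (constants s₀) T (-minor k r b a)
          = -MvPolynomial.eval₂ (constants s₀) T (minor k r b a) := by
        rw [← MvPolynomial.coe_eval₂Hom, map_neg]
      rw [this, hneg]
  have hgen : IsGen k R ((S₀.qK h).gen r • η) 1 := by
    refine h2 R T ((S₀.qK h).gen r • η) M hc hT hfr hM hddM ?_
    choose I J hIJ using hentry
    refine ⟨fun i j => ∑ p : Fin 4 × Fin 4, if hp : p.1 ≠ p.2 then
      (if I p.1 p.2 hp = i ∧ J p.1 p.2 hp = j then (cR p : X₀.functionField) else 0) else 0, ?_, ?_⟩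
    · intro i j
      refine sum_mem fun p _ => ?_
      split_ifs
      · exact (cR p).2
      · exact zero_mem _
      · exact zero_mem _
    · rw [← hsum]
      have e1 : ∀ i j, (∑ p : Fin 4 × Fin 4, if hp : p.1 ≠ p.2 then
          (if I p.1 p.2 hp = i ∧ J p.1 p.2 hp = j then (cR p : X₀.functionField) else 0) else 0)
            * M i j
          = ∑ p : Fin 4 × Fin 4, if hp : p.1 ≠ p.2 then
          (if I p.1 p.2 hp = i ∧ J p.1 p.2 hp = j then (cR p : X₀.functionField) * M i j else 0)
            else 0 := by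
        intro i j
        rw [Finset.sum_mul]
        refine Finset.sum_congr rfl fun p _ => ?_
        split_ifs <;> simp
      simp only [e1]
      have e2 : ∀ i, (∑ j, ∑ p : Fin 4 × Fin 4, if hp : p.1 ≠ p.2 then
          (if I p.1 p.2 hp = i ∧ J p.1 p.2 hp = j then (cR p : X₀.functionField) * M i j else 0)
            else 0) = ∑ p : Fin 4 × Fin 4, ∑ j, if hp : p.1 ≠ p.2 then
          (if I p.1 p.2 hp = i ∧ J p.1 p.2 hp = j then (cR p : X₀.functionField) * M i j else 0)
            else 0 := fun i => Finset.sum_comm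
      simp only [e2]
      rw [Finset.sum_comm]
      refine Finset.sum_congr rfl fun p _ => ?_
      by_cases hp : p.1 ≠ p.2
      · simp only [dif_pos hp]
        rw [Finset.sum_eq_single (I p.1 p.2 hp), Finset.sum_eq_single (J p.1 p.2 hp)]
        · rw [if_pos ⟨rfl, rfl⟩, hIJ p.1 p.2 hp]
        · intro b _ hb
          rw [if_neg]
          rintro ⟨-, rfl⟩
          exact hb rfl
        · intro hn
          exact absurd (Finset.mem_univ _) hn
        · intro b _ hb
          refine Finset.sum_eq_zero fun j _ => ?_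
          rw [if_neg]
          rintro ⟨rfl, -⟩
          exact hb rfl
        · intro hn
          exact absurd (Finset.mem_univ _) hn
      · simp only [dif_neg hp, Finset.sum_const_zero]
        have hp' : p.1 = p.2 := not_not.mp hp
        rw [hp', minor_self, MvPolynomial.eval₂_zero, mul_zero]
  unfold IsGen at hgen ⊢
  rw [one_smul] at hgen
  exact hgen

end Pool.Agent.H1.CM
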