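import Mathlib
import Pool.Agent.H1.CM.Targets2
import Pool.Agent.H1.CM.SBasic

open CategoryTheory AlgebraicGeometry Limits

namespace Pool.Agent.H1.CM

namespace PB

lemma app_rs {X X' : Scheme.{0}} (g : X' ⟶ X) {U V : X.Opens} (h : U ≤ V)
    (h' : g ⁻¹ᵁ U ≤ g ⁻¹ᵁ V) (c : Γ(X, V)) :
    (g.app U).hom (rs X h c) = rs X' h' ((g.app V).hom c) := by
  rw [Scheme.Hom.app_eq_appLE, Scheme.Hom.app_eq_appLE]
  exact appLE_rs g h h' _ _ c

/-- Membership in the subrings `BX` is preserved by pull-back. -/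
lemma mem_pull {X X' : Scheme.{0}} (g : X' ⟶ X) (V : Finset (Fin 3) → X.Opens)
    (S : Finset (Fin 3)) (h : V Finset.univ ≤ V S) (c : Γ(X, V Finset.univ))
    (hc : c ∈ BX X V S) :
    (g.app (V Finset.univ)).hom c ∈ BX X' (fun S => g ⁻¹ᵁ (V S)) S := by
  obtain ⟨b, rfl⟩ := (mem_BX V S h c).mp hc
  have h' : g ⁻¹ᵁ (V Finset.univ) ≤ g ⁻¹ᵁ (V S) := g.preimage_mono h
  refine (mem_BX (fun S => g ⁻¹ᵁ (V S)) S h' _).mpr ⟨(g.app (V S)).hom b, ?_⟩
  exact (app_rs g h h' b).symm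

end PB

open PB in
theorem pb (h1 : T_HOM) : T_PB := by
  intro A A' k _ _ _ _ _ _ _ π π' φ hπ hπ' hφ X X' X₀ f f' g hg s₀ D₀ S₀ i V q D hA
  obtain ⟨-, -, hle⟩ := h1 π hπ f s₀ i hA.cart
  have le : ∀ S : Finset (Fin 3), S.Nonempty → V Finset.univ ≤ V S := by
    intro S hS
    refine hle _ _ ?_
    rw [hA.pre, hA.pre]
    exact S₀.le S hS
  have hw : i ≫ f = (s₀ ≫ Spec.map (CommRingCat.ofHom π')) ≫ Spec.map (CommRingCat.ofHom φ) := by
    rw [hA.cart.w, Category.assoc, ← Spec.map_comp]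
    subst hφ
    rfl
  refine ⟨hg.lift i (s₀ ≫ Spec.map (CommRingCat.ofHom π')) hw, hg.lift_fst _ _ _, ?_⟩
  have hfst : hg.lift i (s₀ ≫ Spec.map (CommRingCat.ofHom π')) hw ≫ g = i := hg.lift_fst _ _ _
  generalize hi' : hg.lift i (s₀ ≫ Spec.map (CommRingCat.ofHom π')) hw = i' at hfst ⊢
  have hsnd : i' ≫ f' = s₀ ≫ Spec.map (CommRingCat.ofHom π') := by
    rw [← hi']
    exact hg.lift_snd _ _ _
  subst hfst
  have hcoord : ∀ S : Finset (Fin 3), S.Nonempty → ∀ c ∈ BX X V S,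
      (g.app (V Finset.univ)).hom c ∈ BX X' (fun S => g ⁻¹ᵁ (V S)) S :=
    fun S hS c hc => mem_pull g V S (le S hS) c hc
  have hcs := fun (S : Fin 3) (c : Γ(X, V Finset.univ)) (hc : c ∈ BX X V {S}) =>
    hcoord {S} (Finset.singleton_nonempty S) c hc
  refine ⟨?_, ?_, ?_, ?_, ?_, ?_, ?_⟩
  · refine IsPullback.of_right (h₁₂ := g) (v₁₃ := f) (h₂₂ := Spec.map (CommRingCat.ofHom φ)) ?_ hsnd hg
    have : Spec.map (CommRingCat.ofHom π') ≫ Spec.map (CommRingCat.ofHom φ)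
        = Spec.map (CommRingCat.ofHom π) := by
      rw [← Spec.map_comp]
      subst hφ
      rfl
    rw [this]
    exact hA.cart
  · intro S
    rw [← hA.pre S]
    rfl
  · obtain ⟨h, hq⟩ := hA.red
    refine ⟨h, ?_⟩
    rw [Quad.map_map, ← hq]
    congr 1
  · obtain ⟨hz, hx, hy⟩ := hA.coord
    have hm : ∀ a b : Γ(X, V Finset.univ), (g.app (V Finset.univ)).hom (a * b)
        = (g.app (V Finset.univ)).hom a * (g.app (V Finset.univ)).hom b := fun a b => map_mul _ a b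
    have hp : ∀ (a : Γ(X, V Finset.univ)) (n : ℕ), (g.app (V Finset.univ)).hom (a ^ n)
        = ((g.app (V Finset.univ)).hom a) ^ n := fun a n => map_pow _ a n
    refine ⟨⟨hcs _ _ hz.1, hcs _ _ hz.2.1, hcs _ _ hz.2.2.1, hcs _ _ hz.2.2.2⟩,
      ⟨hcs _ _ hx.1, ?_, ?_, ?_⟩, ⟨hcs _ _ hy.1, ?_, ?_, ?_⟩⟩
    · have := hcs _ _ hx.2.1
      rwa [hm] at this
    · have := hcs _ _ hx.2.2.1
      rwa [hm, hp] at this
    · have := hcs _ _ hx.2.2.2
      rwa [hm, hp] at this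
    · have := hcs _ _ hy.2.1
      rwa [hm] at this
    · have := hcs _ _ hy.2.2.1
      rwa [hm, hp] at this
    · have := hcs _ _ hy.2.2.2
      rwa [hm, hp] at this
  · exact hA.rel.map φ (g.app (V Finset.univ)).hom
      (fun a => scal_app φ f f' g hg.w (V Finset.univ) a)
  · obtain ⟨h1, h2, h3, h4, h5, h6⟩ := hA.hom
    exact ⟨h1.map φ, h2.map φ, h3.map φ, h4.map φ, h5.map φ, h6.map φ⟩
  · rw [← hA.dred, ← hφ]
    simp [Data.map, MvPolynomial.map_map]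

end Pool.Agent.H1.CM
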