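import Mathlib
import Pool.Agent.H1.CM.Targets3
import Pool.Agent.H1.CM.SBasic

open CategoryTheory AlgebraicGeometry Limits

namespace Pool.Agent.H1.CM

namespace SFL

/-- The sections over a chart form a free module. -/
lemma flat_scal {A : Type} [CommRing A] {X : Scheme.{0}} (f : X ⟶ Spec (CommRingCat.of A))
    {D : Data A} (S : StdOver f D) (T : Finset (Fin 3)) (hT : T.Nonempty) :
    (scal f (S.V T)).Flat := by
  letI : Algebra A Γ(X, S.V T) := (scal f (S.V T)).toAlgebra
  letI : Algebra A Γ(X, S.V Finset.univ) := (scal f (S.V Finset.univ)).toAlgebra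
  let cl : (Idx →₀ A) →ₗ[A] Γ(X, S.V Finset.univ) :=
    { toFun := comb (scal f (S.V Finset.univ)) S.q.mon
      map_add' := comb_add _ _
      map_smul' := fun a g => by
        rw [comb_smul]
        rfl }
  let e : (Idx →₀ A) ≃ₗ[A] Γ(X, S.V Finset.univ) := LinearEquiv.ofBijective cl S.frame.bij
  let r : Γ(X, S.V T) →ₗ[A] Γ(X, S.V Finset.univ) :=
    { toFun := rs X (S.le T hT)
      map_add' := map_add _
      map_smul' := fun a c => by
        change rs X (S.le T hT) (scal f (S.V T) a * c) = scal f (S.V Finset.univ) a * _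
        rw [map_mul, rs_scal] }
  have hr : Function.Injective r := S.inj T hT
  let Φ : Γ(X, S.V T) →ₗ[A] (Idx →₀ A) := e.symm.toLinearMap.comp r
  have hΦ : Function.Injective Φ := e.symm.injective.comp hr
  have hrange : LinearMap.range Φ = Finsupp.supported A A (reg T) := by
    ext g
    rw [Finsupp.mem_supported, LinearMap.mem_range]
    constructor
    · rintro ⟨b, rfl⟩
      have hb : r b ∈ BX X S.V T := (mem_BX S.V T (S.le T hT) _).mpr ⟨b, rfl⟩
      obtain ⟨g, hg, hc⟩ := (S.frame.mem T hT _).mp hb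
      have : Φ b = g := by
        change e.symm (r b) = g
        rw [LinearEquiv.symm_apply_eq]
        exact hc
      rw [this]
      exact fun s hs => hg s hs
    · intro hg
      have hc : comb (scal f (S.V Finset.univ)) S.q.mon g ∈ BX X S.V T :=
        (S.frame.mem T hT _).mpr ⟨g, fun s hs => hg hs, rfl⟩
      obtain ⟨b, hb⟩ := (mem_BX S.V T (S.le T hT) _).mp hc
      refine ⟨b, ?_⟩
      change e.symm (r b) = g
      rw [LinearEquiv.symm_apply_eq]
      exact hb
  have hfree : Module.Free A Γ(X, S.V T) := by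
    have e1 : Γ(X, S.V T) ≃ₗ[A] LinearMap.range Φ := LinearEquiv.ofInjective Φ hΦ
    have e2 : LinearMap.range Φ ≃ₗ[A] Finsupp.supported A A (reg T) := LinearEquiv.ofEq _ _ hrange
    have e3 : Finsupp.supported A A (reg T) ≃ₗ[A] (reg T →₀ A) :=
      Finsupp.supportedEquivFinsupp (reg T)
    exact Module.Free.of_equiv ((e1.trans e2).trans e3).symm
  have hflat : Module.Flat A Γ(X, S.V T) := inferInstance
  exact hflat

end SFL

open SFL in
theorem sfl : T_SFL := by
  intro A _ X f D S
  refine HasRingHomProperty.of_iSup_eq_top (P := @Flat) (fun r : Fin 3 =>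
    (⟨S.V {r}, S.affine {r} (Finset.singleton_nonempty r)⟩ : X.affineOpens)) S.cover ?_
  intro r
  have h := flat_scal f S {r} (Finset.singleton_nonempty r)
  have h1 : (f.appLE ⊤ (S.V {r}) le_top).hom
      = (scal f (S.V {r})).comp (Scheme.ΓSpecIso (CommRingCat.of A)).hom.hom := by
    have : f.appLE ⊤ (S.V {r}) (le_top.trans_eq (Scheme.Hom.preimage_top f).symm)
        = (Scheme.ΓSpecIso (CommRingCat.of A)).hom ≫ CommRingCat.ofHom (scal f (S.V {r})) := by
      rw [scal_eq, Iso.hom_inv_id_assoc]
    exact congrArg (fun z => z.hom) this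
  change RingHom.Flat (f.appLE ⊤ (S.V {r}) le_top).hom
  rw [h1]
  refine RingHom.Flat.comp ?_ h
  exact RingHom.Flat.of_bijective
    (ConcreteCategory.bijective_of_isIso (Scheme.ΓSpecIso (CommRingCat.of A)).hom)

end Pool.Agent.H1.CM
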