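import Mathlib
import Pool.Agent.H1.CM.Stmt0
import Pool.Agent.H1.CMX.FINAL2
import Pool.Agent.H1.CMX.BAS
import Pool.Agent.H1.CMX.CMP
import Pool.Agent.H1.CMX.CMPT
import Pool.Agent.H1.CMX.DATA
import Pool.Agent.H1.CMX.EX
import Pool.Agent.H1.CMX.EXQ
import Pool.Agent.H1.CMX.F2
import Pool.Agent.H1.CMX.FAM
import Pool.Agent.H1.CMX.FINAL
import Pool.Agent.H1.CMX.MODELA
import Pool.Agent.H1.CMX.OMG
import Pool.Agent.H1.CMX.PB
import Pool.Agent.H1.CMX.SFL
import Pool.Agent.H1.CMX.UN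
import Pool.Agent.H16.CMX.BC
import Pool.Agent.H16.CMX.LINB
import Pool.Agent.H17.CMX.AK
import Pool.Agent.H17.CMX.AMP
import Pool.Agent.H17.CMX.AUT
import Pool.Agent.H17.CMX.AUTF
import Pool.Agent.H17.CMX.AUTK
import Pool.Agent.H17.CMX.PPR
import Pool.Agent.H19.CMX.AW
import Pool.Agent.H19.CMX.PSTD
import Pool.Agent.H24.CMX.ETA
import Pool.Agent.H24.CMX.PRES
import Pool.Agent.H24.CMX.SMOA
import Pool.Agent.H29.CMX.COL
import Pool.Agent.H29.CMX.FFX
import Pool.Agent.H29.CMX.FLAT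
import Pool.Agent.H29.CMX.INT
import Pool.Agent.H29.CMX.PFP
import Pool.Agent.H44.CMX.RELD
import Pool.Agent.H44.CMX.STAB
import Pool.Agent.H46.CMX.OMGA
import Pool.Agent.H54.BCE.Alg
import Pool.Agent.H54.BCE.Sch
import Pool.Agent.H56.CMX.AFF
import Pool.Agent.H57.CM.FFD
import Pool.Agent.H57.CM.LOC
import Pool.Agent.H67.CMX.IND
import Pool.Agent.H67.CMX.NORM
import Pool.Agent.H67.CMX.OV
import Pool.Agent.H67.CMX.RED
import Pool.Agent.H67.CMX.TV
import Pool.Agent.H75.CM.CANF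
import Pool.Agent.H75.CM.SMO
import Pool.Agent.H77.CMX.NFX
import Pool.Agent.H77.CMX.REL
import Pool.Agent.H80.CMX.DOM
import Pool.Agent.H80.CMX.FC
import Pool.Agent.H80.CMX.FORM
import Pool.Agent.H80.CMX.H0
import Pool.Agent.H80.CMX.MEM
import Pool.Agent.H80.CMX.RINGS
import Pool.Agent.H86.CMX.FORMA
import Pool.Agent.H86.CMX.LS
import Pool.Agent.H86.CMX.MOD
import Pool.Agent.H86.CMX.UNQ
import Pool.Agent.H90.CMX.JAC
import Pool.Agent.H90.CMX.PX
import Pool.Agent.H50.CM.GB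
import Pool.Agent.H50.CM.GH
import Pool.Agent.H50.CM.PSYM

open CategoryTheory AlgebraicGeometry Limits

namespace Pool.Agent.H1.CM

namespace All

theorem a_hom : T_HOM := Pool.Agent.H54.BCE.hom 

theorem a_sur : T_SUR := Pool.Agent.H54.BCE.sur 

theorem a_aff : T_AFF := Pool.Agent.H1.CM.aff a_hom a_sur

theorem a_ffd : T_FFD := Pool.Agent.H57.CM.ffd 

theorem a_col : T_COL := Pool.Agent.H1.CM.col 

theorem a_form : T_FORM := Pool.Agent.H1.CM.form 

theorem a_ak : T_AK := Pool.Agent.H1.CM.ak a_ffd a_col a_form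

theorem a_eta : T_ETA := Pool.Agent.H1.CM.eta 

theorem a_omga : T_OMGA := Pool.Agent.H1.CM.omga 

theorem a_pres : T_PRES := Pool.Agent.H1.CM.pres 

theorem a_loc : T_LOC := Pool.Agent.H57.CM.loc a_pres

theorem a_jac : T_JAC := Pool.Agent.H1.CM.jac 

theorem a_ffx : T_FFX := Pool.Agent.H1.CM.ffx 

theorem a_omg : T_OMG := Pool.Agent.H1.CM.omg a_eta a_omga a_loc a_jac a_ffx a_pres

theorem a_amp : T_AMP := Pool.Agent.H1.CM.amp a_omg a_ffx

theorem a_dom : T_DOM := Pool.Agent.H1.CM.dom 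

theorem a_int : T_INT := Pool.Agent.H1.CM.int a_dom

theorem a_canf : T_CANF := Pool.Agent.H1.CM.canf a_ffx

theorem a_autf : T_AUTF := Pool.Agent.H1.CM.autf 

theorem a_forma : T_FORMA := Pool.Agent.H1.CM.forma 

theorem a_unq : T_UNQ := Pool.Agent.H1.CM.unq 

theorem a_reld : T_RELD := Pool.Agent.H1.CM.reld a_unq

theorem a_stab : T_STAB := Pool.Agent.H1.CM.stab 

theorem a_autk : T_AUTK := Pool.Agent.H1.CM.autk a_ak a_reld a_stab a_unq

theorem a_aut : T_AUT := Pool.Agent.H1.CM.aut a_int a_ffx a_omg a_canf a_autf a_forma a_autk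

theorem a_gb : T_GB := Pool.Agent.H50.CM.gb 

theorem a_gh : T_GH := Pool.Agent.H50.CM.gh 

theorem a_aw : T_AW := Pool.Agent.H1.CM.aw a_gb a_gh

theorem a_nil : T_NIL := Pool.Agent.H54.BCE.nil 

theorem a_mem : T_MEM := Pool.Agent.H1.CM.mem 

theorem a_red : T_RED := Pool.Agent.H1.CM.red 

theorem a_bas : T_BAS := Pool.Agent.H1.CM.bas a_nil a_mem a_red

theorem a_bc : T_BC := Pool.Agent.H1.CM.bc 

theorem a_ind : T_IND := Pool.Agent.H1.CM.ind 

theorem a_ov : T_OV := Pool.Agent.H1.CM.ov 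

theorem a_redt : T_REDT := Pool.Agent.H1.CM.redt a_red

theorem a_ls : T_LS := Pool.Agent.H1.CM.ls a_ind a_ov a_red a_redt

theorem a_h0 : T_H0 := Pool.Agent.H1.CM.h0 

theorem a_rel : T_REL := Pool.Agent.H1.CM.rel a_bas a_ls a_red a_h0 a_form

theorem a_normu : T_NORMU := Pool.Agent.H1.CM.normu 

theorem a_cmp : T_CMP := Pool.Agent.H1.CM.cmp a_rel a_reld a_bas a_normu a_unq

theorem a_cmpt : T_CMPT := Pool.Agent.H1.CM.cmpt 

theorem a_data : T_DATA := Pool.Agent.H1.CM.data a_bas a_h0 a_form a_unq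

theorem a_flat : T_FLAT := Pool.Agent.H1.CM.flat 

theorem a_flb : T_FLB := Pool.Agent.H54.BCE.flb 

theorem a_linb : T_LINB := Pool.Agent.H1.CM.linb a_hom a_sur a_aff a_flat a_flb

theorem a_tv : T_TV := Pool.Agent.H1.CM.tv 

theorem a_px : T_PX := Pool.Agent.H1.CM.px a_ind a_tv a_red a_redt

theorem a_exq : T_EXQ := Pool.Agent.H1.CM.exq a_px a_ls a_red

theorem a_normx : T_NORMX := Pool.Agent.H1.CM.normx 

theorem a_mod : T_MOD := Pool.Agent.H1.CM.mod a_red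

theorem a_nfx : T_NFX := Pool.Agent.H1.CM.nfx a_ind a_exq a_data a_normx a_mod a_reld a_bas

theorem a_ex : T_EX := Pool.Agent.H1.CM.ex a_hom a_linb a_nfx a_bas

theorem a_un : T_UN := Pool.Agent.H1.CM.un a_hom a_linb a_aut a_cmp

theorem a_pb : T_PB := Pool.Agent.H1.CM.pb a_hom

theorem a_f2 : T_F2 := Pool.Agent.H1.CM.f2 a_ex a_un a_pb

theorem a_fam : T_FAM := Pool.Agent.H1.CM.fam 

theorem a_fc : T_FC := Pool.Agent.H1.CM.fc 

theorem a_ppr : T_PPR := Pool.Agent.H1.CM.ppr a_gb a_gh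

theorem a_pfp : T_PFP := Pool.Agent.H1.CM.pfp a_ppr

theorem a_pstd : T_PSTD := Pool.Agent.H1.CM.pstd a_aw a_gb

theorem a_psym : T_PSYM := Pool.Agent.H50.CM.psym 

theorem a_rings : T_RINGS := Pool.Agent.H1.CM.rings 

theorem a_sfl : T_SFL := Pool.Agent.H1.CM.sfl 

theorem a_smoa : T_SMOA := Pool.Agent.H1.CM.smoa 

theorem a_smo : T_SMO := Pool.Agent.H1.CM.smo a_jac a_pres a_smoa

theorem a_model : T_MODEL := Pool.Agent.H1.CM.modela a_pstd a_sfl a_ppr a_pfp a_psym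

theorem a_main : MainStatement :=
  Pool.Agent.H1.CM.final a_model a_bc a_cmpt a_int a_smo a_amp a_f2 a_fam a_rings a_fc

theorem a_main2 : Main2 :=
  Pool.Agent.H1.CM.final2 a_model a_bc a_cmpt a_int a_smo a_amp a_f2 a_fam a_rings a_fc a_ffx

end All

end Pool.Agent.H1.CM
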