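import Mathlib
import Pool.Agent.H1.CM.Targets2
import Pool.Agent.H1.CM.SBasic

open CategoryTheory AlgebraicGeometry Limits

namespace Pool.Agent.H1.CM

namespace UN

/-- The identity acts as the identity. -/
lemma id_appLE {X : Scheme.{0}} (g : X ⟶ X) (hg : g = 𝟙 X) (U : X.Opens) (e : U ≤ g ⁻¹ᵁ U)
    (c : Γ(X, U)) : (g.appLE U U e).hom c = c := by
  subst hg
  have : (𝟙 X : X ⟶ X).appLE U U e = 𝟙 _ := by
    simp only [Scheme.Hom.appLE, Scheme.Hom.id_app]
    exact (Category.id_comp _).trans (X.presheaf.map_id _)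
  rw [this]
  rfl

lemma appLE_bij {X : Scheme.{0}} (α : X ≅ X) (U : X.Opens) (hU : α.hom ⁻¹ᵁ U = U)
    (e : U ≤ α.hom ⁻¹ᵁ U) : Function.Bijective (α.hom.appLE U U e).hom := by
  have hU' : α.inv ⁻¹ᵁ U = U := by
    conv_lhs => rw [← hU]
    change (α.inv ≫ α.hom) ⁻¹ᵁ U = U
    rw [α.inv_hom_id]
    rfl
  have e' : U ≤ α.inv ⁻¹ᵁ U := hU'.ge
  rw [Function.bijective_iff_has_inverse]
  refine ⟨(α.inv.appLE U U e').hom, ?_, ?_⟩
  · intro c
    have e2 : U ≤ (α.inv ≫ α.hom) ⁻¹ᵁ U := by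
      rw [α.inv_hom_id]
      exact le_rfl
    rw [appLE_appLE α.hom α.inv U U U e e' e2]
    exact id_appLE _ α.inv_hom_id _ _ _
  · intro c
    have e2 : U ≤ (α.hom ≫ α.inv) ⁻¹ᵁ U := by
      rw [α.hom_inv_id]
      exact le_rfl
    rw [appLE_appLE α.inv α.hom U U U e' e e2]
    exact id_appLE _ α.hom_inv_id _ _ _

end UN

open UN in
theorem un (h1 : T_HOM) (h2 : T_LINB) (h3 : T_AUT) (h4 : T_CMP) : T_UN := by
  intro A k _ _ _ _ π hπ two X X₀ f s₀ hfl S₀ i i' V V' q q' D D' hA hA' hN hN'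
  have two' : (2 : k) = 0 := by
    have := congrArg π two
    rwa [map_ofNat, map_zero] at this
  obtain ⟨-, -, hle⟩ := h1 π hπ f s₀ i' hA'.cart
  -- the automorphism
  obtain ⟨α, hα1, hα2⟩ : ∃ α : X₀ ≅ X₀, α.hom ≫ i = i' ∧ α.hom ≫ s₀ = s₀ :=
    ⟨hA'.cart.isoIsPullback _ _ hA.cart, IsPullback.isoIsPullback_hom_fst _ _ _ _,
      IsPullback.isoIsPullback_hom_snd _ _ _ _⟩
  obtain ⟨hV, hh, haX, haY, han⟩ := h3 two' s₀ S₀ α hα2
  -- the charts agree
  have hpre : ∀ S, i' ⁻¹ᵁ (V S) = S₀.V S := by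
    intro S
    rw [← hα1]
    change α.hom ⁻¹ᵁ (i ⁻¹ᵁ (V S)) = S₀.V S
    rw [hA.pre, hV]
  obtain rfl : V = V' := by
    funext S
    refine le_antisymm (hle _ _ ?_) (hle _ _ ?_)
    · rw [hpre, hA'.pre]
    · rw [hpre, hA'.pre]
  obtain ⟨h, hctx⟩ := h2 π hπ two f s₀ i hfl hA.cart S₀ V hA.pre
  obtain ⟨hr, hq⟩ := hA.red
  obtain ⟨hr', hq'⟩ := hA'.red
  set a := (α.hom.appLE (S₀.V Finset.univ) (S₀.V Finset.univ) hh).hom with ha
  set ρ := (i.appLE (V Finset.univ) (S₀.V Finset.univ) h).hom with hρ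
  have haρ : ∀ c, a (ρ c) = (i'.appLE (V Finset.univ) (S₀.V Finset.univ) hr').hom c := by
    intro c
    subst hα1
    exact appLE_appLE i α.hom _ _ _ _ _ _ c
  have hbij : Function.Bijective a := appLE_bij α _ (hV _) hh
  have hmap : (q'.map ρ).map a = S₀.q := by
    rw [Quad.map_map, ← hq']
    congr 1
    ext c
    exact haρ c
  have hsc : ∀ c : k, a (scal s₀ (S₀.V Finset.univ) c) = scal s₀ (S₀.V Finset.univ) c := by
    intro c
    have := scal_appLE (RingHom.id k) s₀ s₀ α.hom (by rw [hα2]; simp) (S₀.V Finset.univ)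
      (S₀.V Finset.univ) hh c
    simpa using this
  have hX : a (ρ q'.X) = S₀.q.X := by
    have := congrArg (fun z : Quad Γ(X₀, S₀.V Finset.univ) => (z.X : Γ(X₀, S₀.V Finset.univ))) hmap
    exact this
  have hY : a (ρ q'.Y) = S₀.q.Y := by
    have := congrArg (fun z : Quad Γ(X₀, S₀.V Finset.univ) => (z.Y : Γ(X₀, S₀.V Finset.univ))) hmap
    exact this
  have hn : a (ρ q'.n) = S₀.q.n := by
    have := congrArg (fun z : Quad Γ(X₀, S₀.V Finset.univ) => z.n) hmap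
    exact this
  have two'' : (2 : Γ(X₀, S₀.V Finset.univ)) = 0 := by
    have := congrArg (scal s₀ (S₀.V Finset.univ)) two'
    rwa [map_ofNat, map_zero] at this
  refine h4 π _ _ _ _ _ hctx two S₀.rel q q' D D' hq hA.coord hA'.coord hA.hom hA'.hom hA.rel
    hA'.rel hA.dred hA'.dred hN hN' ?_ ?_ ?_ ?_
  · apply hbij.1
    rw [hX, haX]
  · apply hbij.1
    rw [hY, haY]
  · rcases han with h5 | h5
    · left
      apply hbij.1
      rw [hn, h5]
    · right
      apply hbij.1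
      rw [hn, map_add, map_mul, haX, haY, h5]
      linear_combination -(S₀.q.X * S₀.q.Y : Γ(X₀, S₀.V Finset.univ)) * two''
  · have hcomb : ∀ g, a (comb (scal s₀ (S₀.V Finset.univ)) (q'.map ρ).mon g)
        = comb (scal s₀ (S₀.V Finset.univ)) S₀.q.mon g := by
      intro g
      rw [comb_map (scal s₀ (S₀.V Finset.univ)) (scal s₀ (S₀.V Finset.univ)) (RingHom.id k) a
        (fun c => hsc c)]
      congr 1
      · funext s
        rw [← Quad.map_mon, hmap]
      · ext s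
        simp
    have hb := S₀.frame.bij
    constructor
    · intro g g' hgg
      apply hb.1
      rw [← hcomb, ← hcomb, hgg]
    · intro c
      obtain ⟨g, hg⟩ := hb.2 (a c)
      refine ⟨g, hbij.1 ?_⟩
      rw [hcomb, hg]

end Pool.Agent.H1.CM
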